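import Pool.Agent.Work.MP_1ce445_co_56.Never

/-!
The exact value for `n` odd and `k = n - 2`.
-/

namespace Pool.Agent.Work.MP_1ce445_co_56

open Finset

/-- For an odd number of vertices each factor loses at least one. -/
lemma gammaT_add_one_le {V : Type*} [Fintype V] [DecidableEq V] {G : SimpleGraph V}
    (h : ∀ v, ∃ w, G.Adj v w) (hodd : Odd (Fintype.card V)) :
    gammaT G + 1 ≤ Fintype.card V := by
  classical
  have hex : ∃ v, 2 ≤ dg G v := by
    by_contra hcon
    push Not at hcon
    have h1 : ∀ v, dg G v = 1 := by
      intro v
      obtain ⟨w, hw⟩ := h v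
      have : 0 < dg G v := card_pos.2 ⟨w, by simpa using hw⟩
      have := hcon v
      omega
    have h2 := G.sum_degrees_eq_twice_card_edges
    have h3 : ∀ v, G.degree v = 1 := by
      intro v
      rw [← h1 v, ← SimpleGraph.card_neighborFinset_eq_degree]
      unfold dg
      congr 1
      ext w
      simp
    simp only [h3, sum_const, card_univ, smul_eq_mul, mul_one] at h2
    rw [h2] at hodd
    exact (Nat.not_odd_iff_even.2 (even_two_mul _)) hodd
  obtain ⟨v, hv⟩ := hex
  have := L1 h v
  omega

section construction

set_option linter.unusedSectionVars false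

variable {N : ℕ} [NeZero N]

/-- The colouring: vertices are the residues modulo `N`, and two further vertices `inr true`,
`inr false`. -/
def col : ZMod N ⊕ Bool → ZMod N ⊕ Bool → ZMod N
  | .inl u, .inl v => u + v
  | .inl u, .inr true => u + u
  | .inr true, .inl u => u + u
  | .inl u, .inr false => u
  | .inr false, .inl u => u
  | .inr _, .inr _ => 0

lemma col_symm (x y : ZMod N ⊕ Bool) : col x y = col y x := by
  rcases x with u | (_ | _) <;> rcases y with v | (_ | _) <;> simp [col, add_comm]

/-- The colour classes. -/
def cg (i : ZMod N) : SimpleGraph (ZMod N ⊕ Bool) where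
  Adj x y := x ≠ y ∧ col x y = i
  symm := ⟨fun x y h => ⟨h.1.symm, by rw [col_symm]; exact h.2⟩⟩
  loopless := ⟨fun _ h => h.1 rfl⟩

lemma cg_adj (i : ZMod N) (x y : ZMod N ⊕ Bool) : (cg i).Adj x y ↔ x ≠ y ∧ col x y = i := Iff.rfl

/-- the half of an element -/
lemma exists_half (hN : Odd N) (i : ZMod N) : ∃ j : ZMod N, j + j = i := by
  obtain ⟨m, hm⟩ := hN
  refine ⟨(m + 1) * i, ?_⟩
  have : ((2 * m + 1 : ℕ) : ZMod N) = 0 := by rw [← hm]; simp
  push_cast at this
  linear_combination i * this

lemma half_unique (hN : Odd N) {i j : ZMod N} (h : i + i = j + j) : i = j := by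
  obtain ⟨m, hm⟩ := hN
  have : ((2 * m + 1 : ℕ) : ZMod N) = 0 := by rw [← hm]; simp
  push_cast at this
  linear_combination (m + 1) * h - (i - j) * this

lemma cg_minDeg (hN : Odd N) (i : ZMod N) (x : ZMod N ⊕ Bool) : ∃ y, (cg i).Adj x y := by
  rcases x with u | (_ | _)
  · by_cases h : u = i - u
    · refine ⟨.inr true, by simp, ?_⟩
      simp only [col]
      linear_combination h
    · refine ⟨.inl (i - u), ?_, ?_⟩
      · intro h'; apply h; exact Sum.inl_injective h'
      · simp [col]
  · exact ⟨.inl i, by simp, rfl⟩
  · obtain ⟨j, hj⟩ := exists_half hN i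
    exact ⟨.inl j, by simp, hj⟩

lemma cg_factorization (hN : Odd N) : IsFactorization (cg (N := N)) := by
  apply IsFactorization.of_adj
  · rintro i j x y ⟨-, h1⟩ ⟨-, h2⟩
    rw [← h1, h2]
  · intro x y hxy
    exact ⟨col x y, hxy, rfl⟩
  · exact cg_minDeg hN

/-- A total dominating set contains each vertex that is the only neighbour of some vertex. -/
lemma mem_of_forced {V : Type*} {G : SimpleGraph V} {S : Finset V} (hS : IsTDS G S) {v w : V}
    (h : ∀ x, G.Adj w x → x = v) : v ∈ S := by
  obtain ⟨x, hx, ha⟩ := hS w
  rw [← h x ha]; exact hx

lemma cg_tds_card (hN : Odd N) (i : ZMod N) {S : Finset (ZMod N ⊕ Bool)} (hS : IsTDS (cg i) S) :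
    N + 1 ≤ S.card := by
  classical
  -- the complement of `S` has at most one element
  have hcompl : (Sᶜ).card ≤ 1 := by
    rw [card_le_one]
    have hgen : ∀ u : ZMod N, u ≠ 0 → u ≠ i → (.inl u : ZMod N ⊕ Bool) ∈ S := by
      intro u hu0 hui
      by_cases h : u = i - u
      · -- forced by `∞`
        have hi : i ≠ 0 ∨ i = 0 := by tauto
        rcases hi with hi | hi
        · apply mem_of_forced hS (w := .inr true)
          rintro (v | (_ | _)) ⟨h1, h2⟩
          · simp only [col] at h2
            congr 1
            apply half_unique hN
            rw [h2]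
            linear_combination -h
          · simp only [col] at h2
            exact absurd h2.symm hi
          · exact absurd rfl h1
        · exfalso
          apply hu0
          apply half_unique hN
          rw [hi] at h
          linear_combination h
      · apply mem_of_forced hS (w := .inl (i - u))
        rintro (v | (_ | _)) ⟨h1, h2⟩
        · simp only [col] at h2
          congr 1
          linear_combination h2
        · simp only [col] at h2
          exfalso; apply hu0; linear_combination -h2
        · simp only [col] at h2
          exfalso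
          apply h
          linear_combination -h2
    by_cases hi : i = 0
    · subst hi
      have hz := hS (.inr false)
      have ht := hS (.inr true)
      have h0 := hS (.inl 0)
      have hgen' : ∀ u : ZMod N, (.inl u : ZMod N ⊕ Bool) ∉ S → u = 0 := by
        intro u hu
        by_contra h
        exact hu (hgen u h h)
      -- neighbours
      have nz : ∀ y, (cg (0 : ZMod N)).Adj (.inr false) y → y = .inl 0 ∨ y = .inr true := by
        rintro (v | (_ | _)) ⟨h1, h2⟩
        · left; simp only [col] at h2; rw [h2]
        · exact absurd rfl h1
        · right; rfl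
      have nt : ∀ y, (cg (0 : ZMod N)).Adj (.inr true) y → y = .inl 0 ∨ y = .inr false := by
        rintro (v | (_ | _)) ⟨h1, h2⟩
        · left; simp only [col] at h2
          congr 1
          apply half_unique hN
          rw [h2]; ring
        · right; rfl
        · exact absurd rfl h1
      have n0 : ∀ y, (cg (0 : ZMod N)).Adj (.inl 0) y → y = .inr true ∨ y = .inr false := by
        rintro (v | (_ | _)) ⟨h1, h2⟩
        · simp only [col, zero_add] at h2; subst h2; exact absurd rfl h1
        · right; rfl
        · left; rfl
      have hz' : (.inl 0 : ZMod N ⊕ Bool) ∈ S ∨ (.inr true : ZMod N ⊕ Bool) ∈ S := by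
        obtain ⟨w, hw, ha⟩ := hz
        rcases nz w ha with rfl | rfl
        · left; exact hw
        · right; exact hw
      have ht' : (.inl 0 : ZMod N ⊕ Bool) ∈ S ∨ (.inr false : ZMod N ⊕ Bool) ∈ S := by
        obtain ⟨w, hw, ha⟩ := ht
        rcases nt w ha with rfl | rfl
        · left; exact hw
        · right; exact hw
      have h0' : (.inr true : ZMod N ⊕ Bool) ∈ S ∨ (.inr false : ZMod N ⊕ Bool) ∈ S := by
        obtain ⟨w, hw, ha⟩ := h0
        rcases n0 w ha with rfl | rfl
        · left; exact hw
        · right; exact hw
      intro x hx y hy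
      rw [mem_compl] at hx hy
      rcases x with u | (_ | _) <;> rcases y with v | (_ | _)
      · rw [hgen' u hx, hgen' v hy]
      · rw [hgen' u hx] at hx; tauto
      · rw [hgen' u hx] at hx; tauto
      · rw [hgen' v hy] at hy; tauto
      · rfl
      · tauto
      · rw [hgen' v hy] at hy; tauto
      · tauto
      · rfl
    · -- `i ≠ 0`
      have hiS : (.inl i : ZMod N ⊕ Bool) ∈ S := by
        apply mem_of_forced hS (w := .inr false)
        rintro (v | (_ | _)) ⟨h1, h2⟩
        · simp only [col] at h2; rw [h2]
        · exact absurd rfl h1
        · simp only [col] at h2; exact absurd h2.symm hi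
      have hgen' : ∀ u : ZMod N, (.inl u : ZMod N ⊕ Bool) ∉ S → u = 0 := by
        intro u hu
        by_contra h
        by_cases h' : u = i
        · rw [h'] at hu; exact hu hiS
        · exact hu (hgen u h h')
      have htS : (.inr true : ZMod N ⊕ Bool) ∈ S := by
        obtain ⟨j, hj⟩ := exists_half hN i
        apply mem_of_forced hS (w := .inl j)
        rintro (v | (_ | _)) ⟨h1, h2⟩
        · simp only [col] at h2
          exfalso
          apply h1
          congr 1
          linear_combination hj - h2
        · simp only [col] at h2
          exfalso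
          apply hi
          rw [h2] at hj
          linear_combination hj
        · rfl
      have h0' : (.inl 0 : ZMod N ⊕ Bool) ∈ S ∨ (.inr false : ZMod N ⊕ Bool) ∈ S := by
        obtain ⟨w, hw, ha⟩ := hS (.inl i)
        have : w = .inl 0 ∨ w = .inr false := by
          rcases w with v | (_ | _)
          · left
            obtain ⟨h1, h2⟩ := ha
            simp only [col] at h2
            congr 1
            linear_combination h2
          · right; rfl
          · obtain ⟨h1, h2⟩ := ha
            simp only [col] at h2
            exfalso
            apply hi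
            linear_combination h2
        rcases this with rfl | rfl
        · left; exact hw
        · right; exact hw
      intro x hx y hy
      rw [mem_compl] at hx hy
      rcases x with u | (_ | _) <;> rcases y with v | (_ | _)
      · rw [hgen' u hx, hgen' v hy]
      · rw [hgen' u hx] at hx; tauto
      · rw [hgen' u hx] at hx; tauto
      · rw [hgen' v hy] at hy; tauto
      · rfl
      · tauto
      · rw [hgen' v hy] at hy; tauto
      · tauto
      · rfl
  have h1 : (Sᶜ).card + S.card = Fintype.card (ZMod N ⊕ Bool) := card_compl_add_card S
  have h2 : Fintype.card (ZMod N ⊕ Bool) = N + 2 := by simp [ZMod.card]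
  omega

end construction

theorem odd_value {n : ℕ} (h7 : 7 ≤ n) (hn : Odd n) : P n (n - 2) = (n - 1) ^ (n - 2) := by
  apply le_antisymm
  · apply P_le
    intro G hG
    calc ∏ j, gammaT (G j) ≤ ∏ _j : Fin (n - 2), (n - 1) := by
          apply Finset.prod_le_prod'
          intro j _
          have := gammaT_add_one_le (hG.minDeg j) (by simpa using hn)
          rw [Fintype.card_fin] at this
          omega
      _ = (n - 1) ^ (n - 2) := by simp
  · have : NeZero (n - 2) := ⟨by omega⟩
    have hodd : Odd (n - 2) := by
      obtain ⟨m, hm⟩ := hn
      exact ⟨m - 1, by omega⟩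
    have h1 := le_P (V := ZMod (n - 2) ⊕ Bool) (ι := ZMod (n - 2)) (n := n) (k := n - 2)
      (by simp [ZMod.card]; omega) (by simp [ZMod.card]) (cg_factorization hodd)
    refine le_trans ?_ h1
    calc (n - 1) ^ (n - 2) = ∏ _i : ZMod (n - 2), (n - 1) := by simp [ZMod.card]
      _ ≤ _ := by
          apply Finset.prod_le_prod'
          intro i _
          obtain ⟨S, hS, hc⟩ := exists_tds (cg_minDeg hodd i)
          rw [← hc]
          have := cg_tds_card hodd i hS
          omega

end Pool.Agent.Work.MP_1ce445_co_56
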