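import Pool.Agent.Work.MP_1ce445_co_56.Never

/-!
A bound for the number of edges of a graph in terms of `n - gammaT G`.
-/

namespace Pool.Agent.Work.MP_1ce445_co_56

open Finset

variable {V : Type*} [Fintype V] [DecidableEq V]

/-- If `gammaT G = n - l` then the degree sum is at most `n + 2 l (l + 1)`. -/
lemma excess {G : SimpleGraph V} (h : ∀ v, ∃ w, G.Adj v w) :
    ∑ v, dg G v ≤ Fintype.card V +
      2 * (Fintype.card V - gammaT G) * (Fintype.card V - gammaT G + 1) := by
  classical
  set n := Fintype.card V with hn
  set l := n - gammaT G with hl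
  have hγ : gammaT G ≤ n := gammaT_le_univ h
  let cov : Finset V → Finset V := fun Z => univ.filter (fun v => ¬ ∀ z ∈ Z, ¬ G.Adj v z)
  let unc : Finset V → Finset V := fun Z => univ.filter (fun v => ∀ z ∈ Z, ¬ G.Adj v z)
  have hsum : ∀ Z, (unc Z).card + (cov Z).card = n := by
    intro Z
    have := card_filter_add_card_filter_not (s := (univ : Finset V))
      (fun v => ∀ z ∈ Z, ¬ G.Adj v z)
    rw [card_univ] at this
    exact this
  obtain ⟨Z, hZmem, hZmax⟩ := exists_max_image
    ((univ : Finset (Finset V)).filter (fun Z => 2 * Z.card ≤ (cov Z).card)) card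
    ⟨∅, by simp⟩
  rw [mem_filter] at hZmem
  have h1 : gammaT G ≤ Z.card + (unc Z).card := gammaT_le_add h Z
  have h2 := hsum Z
  have h3 := hZmem.2
  have hcov : (cov Z).card ≤ 2 * l := by omega
  have hnb : ∀ z, (nb G (unc Z) z).card ≤ 1 := by
    intro z
    by_contra hcon
    push Not at hcon
    have hzZ : z ∉ Z := by
      intro hz
      have : nb G (unc Z) z = ∅ := by
        unfold nb
        ext v
        simp only [mem_filter, unc, mem_univ, true_and, notMem_empty, iff_false]
        rintro ⟨h4, h5⟩
        exact h4 z hz h5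
      rw [this] at hcon
      simp at hcon
    have h4 : (cov Z).card + (nb G (unc Z) z).card ≤ (cov (insert z Z)).card := by
      rw [← card_union_of_disjoint]
      · apply card_le_card
        intro v hv
        simp only [cov, unc, nb, mem_union, mem_filter, mem_univ, true_and, mem_insert,
          forall_eq_or_imp] at hv ⊢
        tauto
      · rw [disjoint_left]
        intro v h5 h6
        simp only [cov, unc, nb, mem_filter, mem_univ, true_and] at h5 h6
        exact h5 h6.1
    have h5 := hZmax (insert z Z) (by
      rw [mem_filter]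
      refine ⟨mem_univ _, ?_⟩
      rw [card_insert_of_notMem hzZ]
      omega)
    rw [card_insert_of_notMem hzZ] at h5
    omega
  have hU : ∑ y ∈ unc Z, dg G y ≤ n := by
    rw [sum_dg]
    calc ∑ z, (nb G (unc Z) z).card ≤ ∑ _z : V, 1 := sum_le_sum fun z _ => hnb z
      _ = n := by simp [hn]
  have hC : ∑ y ∈ cov Z, dg G y ≤ 2 * l * (l + 1) := by
    calc ∑ y ∈ cov Z, dg G y ≤ ∑ _y ∈ cov Z, (l + 1) := by
          apply sum_le_sum
          intro y _
          have := L1 h y
          rw [← hn] at this
          omega
      _ = (cov Z).card * (l + 1) := by simp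
      _ ≤ 2 * l * (l + 1) := Nat.mul_le_mul_right _ hcov
  have hsplit : ∑ v, dg G v = ∑ y ∈ unc Z, dg G y + ∑ y ∈ cov Z, dg G y :=
    (sum_filter_add_sum_filter_not univ (fun v => ∀ z ∈ Z, ¬ G.Adj v z) (dg G)).symm
  rw [hsplit]
  omega

end Pool.Agent.Work.MP_1ce445_co_56
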