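import Pool.Agent.Work.MP_1ce445_co_56.Defs

namespace Pool.Agent.Work.MP_1ce445_co_56

open Finset

section basics

set_option linter.unusedSectionVars false

variable {V : Type*} [Fintype V] [DecidableEq V]

lemma gammaT_le_card {G : SimpleGraph V} {S : Finset V} (h : IsTDS G S) :
    gammaT G ≤ S.card :=
  Nat.sInf_le ⟨S, h, rfl⟩

lemma isTDS_univ {G : SimpleGraph V} (h : ∀ v, ∃ w, G.Adj v w) : IsTDS G univ := fun v => by
  obtain ⟨w, hw⟩ := h v
  exact ⟨w, mem_univ _, hw⟩

lemma exists_tds {G : SimpleGraph V} (h : ∀ v, ∃ w, G.Adj v w) :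
    ∃ S : Finset V, IsTDS G S ∧ S.card = gammaT G := by
  have hne : {m | ∃ S : Finset V, IsTDS G S ∧ S.card = m}.Nonempty :=
    ⟨_, univ, isTDS_univ h, rfl⟩
  exact Nat.sInf_mem hne

lemma gammaT_le_univ {G : SimpleGraph V} (h : ∀ v, ∃ w, G.Adj v w) :
    gammaT G ≤ Fintype.card V :=
  (gammaT_le_card (isTDS_univ h)).trans (by simp)

/-- The main upper bound: dominate by `Z`, then add a neighbour for each undominated vertex. -/
lemma gammaT_le_add {G : SimpleGraph V} [DecidableRel G.Adj] (h : ∀ v, ∃ w, G.Adj v w)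
    (Z : Finset V) :
    gammaT G ≤ Z.card + (univ.filter (fun v => ∀ z ∈ Z, ¬ G.Adj v z)).card := by
  choose f hf using h
  have : IsTDS G (Z ∪ (univ.filter (fun v => ∀ z ∈ Z, ¬ G.Adj v z)).image f) := by
    intro v
    by_cases hv : ∀ z ∈ Z, ¬ G.Adj v z
    · exact ⟨f v, mem_union_right _ (mem_image_of_mem _ (by simpa using hv)), hf v⟩
    · push Not at hv
      obtain ⟨z, hz, hzv⟩ := hv
      exact ⟨z, mem_union_left _ hz, hzv⟩
  refine (gammaT_le_card this).trans ((card_union_le _ _).trans ?_)
  exact Nat.add_le_add_left card_image_le _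

/-- Lower bound by forced vertices. -/
lemma card_le_gammaT {G : SimpleGraph V} (h : ∀ v, ∃ w, G.Adj v w) {α : Type*} [Fintype α]
    (f g : α → V) (hg : Function.Injective g) (hfg : ∀ x w, G.Adj (f x) w → w = g x) :
    Fintype.card α ≤ gammaT G := by
  obtain ⟨S, hS, hc⟩ := exists_tds h
  rw [← hc, ← card_univ, ← card_image_of_injective univ hg]
  apply card_le_card
  intro y hy
  obtain ⟨x, -, rfl⟩ := mem_image.1 hy
  obtain ⟨w, hw, ha⟩ := hS (f x)
  rw [← hfg x w ha]; exact hw

end basics

lemma IsFactorization.unique {V ι : Type*} {G : ι → SimpleGraph V} (hG : IsFactorization G)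
    {i j : ι} {v w : V} (h1 : (G i).Adj v w) (h2 : (G j).Adj v w) : i = j := by
  by_contra hij
  have h3 : s(v, w) ∈ (G i).edgeSet := h1
  have h4 : s(v, w) ∈ (G j).edgeSet := h2
  exact Set.disjoint_left.1 (hG.disj i j hij) h3 h4

/-- A factorization from pairwise disjointness of the adjacency relations. -/
lemma IsFactorization.of_adj {V ι : Type*} {G : ι → SimpleGraph V}
    (hd : ∀ i j v w, (G i).Adj v w → (G j).Adj v w → i = j)
    (hc : ∀ v w, v ≠ w → ∃ i, (G i).Adj v w) (hm : ∀ i v, ∃ w, (G i).Adj v w) :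
    IsFactorization G := by
  refine ⟨?_, hc, hm⟩
  intro i j hij
  rw [Set.disjoint_left]
  intro s
  induction s with
  | _ a b =>
    intro h1 h2
    exact hij (hd i j a b h1 h2)

/-- Transfer of a factorization along bijections. -/
lemma exists_transfer {V ι : Type*} [Fintype V] [DecidableEq V] [Fintype ι] {n k : ℕ}
    (hV : Fintype.card V = n) (hι : Fintype.card ι = k) {G : ι → SimpleGraph V}
    (hG : IsFactorization G) :
    ∃ G' : Fin k → SimpleGraph (Fin n), IsFactorization G' ∧
      ∏ j, gammaT (G' j) = ∏ i, gammaT (G i) := by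
  classical
  let e : Fin n ≃ V := (Fintype.equivFinOfCardEq hV).symm
  let f : Fin k ≃ ι := (Fintype.equivFinOfCardEq hι).symm
  refine ⟨fun j => (G (f j)).comap e, IsFactorization.of_adj ?_ ?_ ?_, ?_⟩
  · intro i j a b h1 h2
    exact f.injective (hG.unique h1 h2)
  · intro v w hvw
    obtain ⟨i, hi⟩ := hG.cover (e v) (e w) (fun h => hvw (e.injective h))
    exact ⟨f.symm i, by simpa using hi⟩
  · intro i v
    obtain ⟨w, hw⟩ := hG.minDeg (f i) (e v)
    exact ⟨e.symm w, by simpa using hw⟩
  · rw [← f.prod_comp]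
    apply Finset.prod_congr rfl
    intro j _
    have key : ∀ m : ℕ, (∃ S : Finset (Fin n), IsTDS ((G (f j)).comap e) S ∧ S.card = m) ↔
        ∃ S : Finset V, IsTDS (G (f j)) S ∧ S.card = m := by
      intro m
      constructor
      · rintro ⟨S, hS, rfl⟩
        refine ⟨S.map e.toEmbedding, ?_, by simp⟩
        intro v
        obtain ⟨w, hw, ha⟩ := hS (e.symm v)
        exact ⟨e w, by simpa using hw, by simpa using ha⟩
      · rintro ⟨S, hS, rfl⟩
        refine ⟨S.map e.symm.toEmbedding, ?_, by simp⟩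
        intro v
        obtain ⟨w, hw, ha⟩ := hS (e v)
        exact ⟨e.symm w, by simpa using hw, by simpa using ha⟩
    unfold gammaT
    congr 1
    ext m
    exact key m

lemma prod_le_pow {n k : ℕ} {G : Fin k → SimpleGraph (Fin n)} (hG : IsFactorization G) :
    ∏ j, gammaT (G j) ≤ n ^ k := by
  calc ∏ j, gammaT (G j) ≤ ∏ _j : Fin k, n :=
        Finset.prod_le_prod' fun j _ => by simpa using gammaT_le_univ (hG.minDeg j)
    _ = n ^ k := by simp

lemma bddAbove_set (n k : ℕ) : BddAbove {p | ∃ G : Fin k → SimpleGraph (Fin n),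
    IsFactorization G ∧ p = ∏ j, gammaT (G j)} :=
  ⟨n ^ k, by rintro p ⟨G, hG, rfl⟩; exact prod_le_pow hG⟩

/-- Lower bounds for `P` from a factorization on any vertex type. -/
lemma le_P {V ι : Type*} [Fintype V] [DecidableEq V] [Fintype ι] {n k : ℕ}
    (hV : Fintype.card V = n) (hι : Fintype.card ι = k) {G : ι → SimpleGraph V}
    (hG : IsFactorization G) : ∏ i, gammaT (G i) ≤ P n k := by
  obtain ⟨G', hG', h⟩ := exists_transfer hV hι hG
  rw [← h]
  exact le_csSup (bddAbove_set n k) ⟨G', hG', rfl⟩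

/-- Upper bounds for `P`. -/
lemma P_le {n k B : ℕ} (h : ∀ G : Fin k → SimpleGraph (Fin n), IsFactorization G →
    ∏ j, gammaT (G j) ≤ B) : P n k ≤ B := by
  unfold P
  rcases Set.eq_empty_or_nonempty {p | ∃ G : Fin k → SimpleGraph (Fin n),
    IsFactorization G ∧ p = ∏ j, gammaT (G j)} with h0 | h0
  · rw [h0]; simp
  · apply csSup_le h0
    rintro p ⟨G, hG, rfl⟩
    exact h G hG

/-- `P` is attained, or no factorization exists. -/
lemma P_attained (n k : ℕ) : P n k = 0 ∨ ∃ G : Fin k → SimpleGraph (Fin n),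
    IsFactorization G ∧ P n k = ∏ j, gammaT (G j) := by
  unfold P
  rcases Set.eq_empty_or_nonempty {p | ∃ G : Fin k → SimpleGraph (Fin n),
    IsFactorization G ∧ p = ∏ j, gammaT (G j)} with h0 | h0
  · left; rw [h0]; simp
  · right
    exact Nat.sSup_mem h0 (bddAbove_set n k)

section degrees

variable {V ι : Type*} [Fintype V] [DecidableEq V] [Fintype ι]

open Classical in
/-- In a factorization the degrees of each vertex sum to `n - 1`. -/
lemma sum_degree {G : ι → SimpleGraph V} (hG : IsFactorization G) (v : V) :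
    ∑ i, (univ.filter (fun w => (G i).Adj v w)).card = Fintype.card V - 1 := by
  rw [← card_biUnion]
  · have : (univ.biUnion fun i => univ.filter (fun w => (G i).Adj v w)) = univ.erase v := by
      ext w
      simp only [mem_biUnion, mem_univ, true_and, mem_filter, mem_erase, and_true]
      constructor
      · rintro ⟨i, hi⟩ rfl
        exact (G i).loopless.irrefl _ hi
      · intro h
        exact hG.cover v w (Ne.symm h)
    rw [this, card_erase_of_mem (mem_univ _), card_univ]
  · intro i _ j _ hij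
    rw [Function.onFun, Finset.disjoint_left]
    intro w h1 h2
    simp only [mem_filter, mem_univ, true_and] at h1 h2
    exact hij (hG.unique h1 h2)

end degrees

end Pool.Agent.Work.MP_1ce445_co_56
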