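import Mathlib

/-!
Total domination numbers over factorizations of complete graphs: definitions.
-/

namespace Pool.Agent.Work.MP_1ce445_co_56

/-- `S` is a total dominating set of `G`: every vertex has a neighbour in `S`. -/
def IsTDS {V : Type*} (G : SimpleGraph V) (S : Finset V) : Prop :=
  ∀ v, ∃ w ∈ S, G.Adj v w

/-- The total domination number: the least size of a total dominating set. -/
noncomputable def gammaT {V : Type*} (G : SimpleGraph V) : ℕ :=
  sInf {m | ∃ S : Finset V, IsTDS G S ∧ S.card = m}

/-- `G` is a factorization of the complete graph on `V`, all of whose factors have minimum degree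
at least one: the factors have pairwise disjoint edge sets, every pair of distinct vertices is
adjacent in some factor, and every vertex has a neighbour in every factor. -/
structure IsFactorization {V ι : Type*} (G : ι → SimpleGraph V) : Prop where
  disj : ∀ i j, i ≠ j → Disjoint (G i).edgeSet (G j).edgeSet
  cover : ∀ v w, v ≠ w → ∃ i, (G i).Adj v w
  minDeg : ∀ i v, ∃ w, (G i).Adj v w

/-- `P n k` is the maximum of the product of the total domination numbers of the factors, over all
factorizations of the complete graph on `n` vertices into `k` factors without isolated vertices. -/
noncomputable def P (n k : ℕ) : ℕ :=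
  sSup {p | ∃ G : Fin k → SimpleGraph (Fin n), IsFactorization G ∧ p = ∏ j, gammaT (G j)}

end Pool.Agent.Work.MP_1ce445_co_56
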