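import Mathlib

/-!
The key inequality: for a probability distribution on an intersecting family of sets, the product
of the probabilities that a point is missed is at most `1 / 27`.
-/

namespace Pool.Agent.Work.MP_1ce445_co_56

open Finset

lemma one_var {t : ℝ} (h1 : 2/5 ≤ t) (h2 : t ≤ 1) :
    3 * (1 - t) ≤ Real.exp (1 - 9/4*t^2) := by
  have hA : 0 ≤ 1 + (1 - 9/4*t^2)/4 := by nlinarith
  have h3 : (1 + (1 - 9/4*t^2)/4)^4 ≤ Real.exp (1 - 9/4*t^2) := by
    have h4 := Real.add_one_le_exp ((1 - 9/4*t^2)/4)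
    calc (1 + (1 - 9/4*t^2)/4)^4 ≤ (Real.exp ((1 - 9/4*t^2)/4))^4 := by
          apply pow_le_pow_left₀ hA; linarith
      _ = Real.exp (1 - 9/4*t^2) := by
          rw [← Real.exp_nat_mul]; congr 1; push_cast; ring
  refine le_trans ?_ h3
  have key : 0 ≤ 729*t^6+972*t^5-5508*t^4-7776*t^3+13680*t^2+21696*t-9152 := by
    have ha : 0 ≤ t - 2/5 := by linarith
    have hb : 0 ≤ 1 - t := by linarith
    have hc : 0 ≤ (t - 2/5) * (1 - t) := mul_nonneg ha hb
    have e1 : 0 ≤ 729*t^6+972*t^5 := by positivity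
    have e2 : t^4 ≤ t^2 := by nlinarith [sq_nonneg t, sq_nonneg (t^2)]
    have e3 : t^3 ≤ t^2 := by nlinarith [sq_nonneg t]
    nlinarith [mul_nonneg hc ha, mul_nonneg hc hb, mul_nonneg (mul_nonneg hc ha) ha,
      mul_nonneg (mul_nonneg hc ha) hb, mul_nonneg (mul_nonneg hc hb) hb]
  nlinarith [mul_nonneg (sq_nonneg (3*t-2)) key]

lemma one_var_weak {t : ℝ} (h1 : 0 ≤ t) (h2 : t ≤ 1) :
    1 - t ≤ Real.exp (-(9/4*t^2)) := by
  rcases le_total t (2/5) with h | h
  · have h3 := Real.add_one_le_exp (-t)
    have h4 : Real.exp (-t) ≤ Real.exp (-(9/4*t^2)) := by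
      apply Real.exp_le_exp.2
      nlinarith
    linarith
  · have h3 := one_var h h2
    have h4 : Real.exp (1 - 9/4*t^2) = Real.exp 1 * Real.exp (-(9/4*t^2)) := by
      rw [← Real.exp_add]; ring_nf
    have h5 : Real.exp 1 ≤ 3 := by have := Real.exp_one_lt_d9; linarith
    have h6 := Real.exp_pos (-(9/4*t^2))
    rw [h4] at h3
    nlinarith

lemma four_over {ι : Type*} [DecidableEq ι] (s : Finset ι) (t : ι → ℝ) (h0 : ∀ j ∈ s, 0 ≤ t j)
    (h1 : ∀ j ∈ s, t j ≤ 1) : (∑ j ∈ s, t j ^ 2) * ∏ j ∈ s, (1 - t j) ≤ 4 / 27 := by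
  set q := ∑ j ∈ s, t j ^ 2 with hq
  have hq0 : 0 ≤ q := sum_nonneg fun j _ => sq_nonneg _
  by_cases hA : ∃ j ∈ s, 2/5 ≤ t j
  · obtain ⟨j0, hj0, hj⟩ := hA
    have h2 : ∏ j ∈ s, (1 - t j) ≤ 1/3 * Real.exp (1 - 9/4 * q) := by
      rw [← mul_prod_erase s _ hj0]
      have h3 := one_var hj (h1 j0 hj0)
      have h4 : ∏ j ∈ s.erase j0, (1 - t j) ≤ ∏ j ∈ s.erase j0, Real.exp (-(9/4*(t j)^2)) := by
        apply prod_le_prod
        · intro j hj; have := h1 j (mem_of_mem_erase hj); linarith
        · intro j hj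
          exact one_var_weak (h0 j (mem_of_mem_erase hj)) (h1 j (mem_of_mem_erase hj))
      rw [← Real.exp_sum, sum_neg_distrib, ← mul_sum] at h4
      have h5 : q = t j0 ^ 2 + ∑ j ∈ s.erase j0, t j ^ 2 := (add_sum_erase s _ hj0).symm
      have h6 : Real.exp (1 - 9/4 * q) = Real.exp (1 - 9/4 * t j0 ^ 2) *
          Real.exp (-(9/4 * ∑ j ∈ s.erase j0, t j ^ 2)) := by
        rw [← Real.exp_add, h5]; ring_nf
      rw [h6, ← mul_assoc]
      apply mul_le_mul _ h4 (prod_nonneg fun j hj => by
        have := h1 j (mem_of_mem_erase hj); linarith) (by positivity)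
      linarith
    have h3 : q ≤ 4/9 * Real.exp (9/4 * q - 1) := by
      have := Real.add_one_le_exp (9/4*q - 1)
      linarith
    calc q * ∏ j ∈ s, (1 - t j) ≤ (4/9 * Real.exp (9/4 * q - 1)) *
          (1/3 * Real.exp (1 - 9/4 * q)) := by
          apply mul_le_mul h3 h2 (prod_nonneg fun j hj => by
            have := h1 j hj; linarith) (by positivity)
      _ = 4/27 * (Real.exp (9/4 * q - 1) * Real.exp (1 - 9/4 * q)) := by ring
      _ = 4/27 := by rw [← Real.exp_add]; simp
  · push Not at hA
    set S := ∑ j ∈ s, t j with hS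
    have h2 : q ≤ 2/5 * S := by
      rw [hq, hS, mul_sum]
      apply sum_le_sum
      intro j hj
      have := hA j hj
      have := h0 j hj
      nlinarith
    have hS0 : 0 ≤ S := sum_nonneg h0
    have h3 : ∏ j ∈ s, (1 - t j) ≤ Real.exp (-S) := by
      rw [hS, ← sum_neg_distrib, Real.exp_sum]
      apply prod_le_prod
      · intro j hj; have := h1 j hj; linarith
      · intro j hj
        have := Real.add_one_le_exp (-(t j))
        linarith
    have h4 : S ≤ Real.exp (S - 1) := by
      have := Real.add_one_le_exp (S - 1)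
      linarith
    have h5 : (27:ℝ)/10 ≤ Real.exp 1 := by have := Real.exp_one_gt_d9; linarith
    have h6 : Real.exp (-1) ≤ 10/27 := by
      rw [Real.exp_neg, inv_le_comm₀ (Real.exp_pos 1) (by norm_num)]
      norm_num
      linarith
    calc q * ∏ j ∈ s, (1 - t j) ≤ (2/5 * Real.exp (S - 1)) * Real.exp (-S) := by
          apply mul_le_mul (by linarith) h3 (prod_nonneg fun j hj => by
            have := h1 j hj; linarith) (by positivity)
      _ = 2/5 * Real.exp (-1) := by
          rw [mul_assoc, ← Real.exp_add]; ring_nf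
      _ ≤ 4/27 := by linarith

lemma second_order {p : ℝ} (h0 : 0 ≤ p) (h1 : p ≤ 1) : 1 - p ≤ Real.exp (-(p + p^2/2)) := by
  rcases eq_or_lt_of_le h1 with rfl | h
  · simp; positivity
  · have h2 : |p| < 1 := by rw [abs_of_nonneg h0]; exact h
    have h3 := Real.hasSum_pow_div_log_of_abs_lt_one h2
    have h4 := sum_le_hasSum (range 2) (fun i _ => by positivity) h3
    rw [sum_range_succ, sum_range_one] at h4
    norm_num at h4
    have h5 : Real.log (1 - p) ≤ -(p + p^2/2) := by linarith
    have h6 : 0 < 1 - p := by linarith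
    calc 1 - p = Real.exp (Real.log (1 - p)) := (Real.exp_log h6).symm
      _ ≤ _ := Real.exp_le_exp.2 h5

section family

variable {ι W : Type*} [Fintype ι] [DecidableEq ι] [DecidableEq W]

theorem key_ineq (S : Finset W) (T : W → Finset ι) (hS : S.Nonempty)
    (hT : ∀ v ∈ S, ∀ w ∈ S, (T v ∩ T w).Nonempty) :
    ∏ j : ι, (1 - ((S.filter (fun v => j ∈ T v)).card : ℝ) / S.card) ≤ 1/27 := by
  have hcS : (0 : ℝ) < S.card := by exact_mod_cast hS.card_pos
  set c : ι → ℝ := fun j => ((S.filter (fun v => j ∈ T v)).card : ℝ) with hc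
  set p : ι → ℝ := fun j => c j / S.card with hp
  have hp0 : ∀ j, 0 ≤ p j := fun j => by positivity
  have hp1 : ∀ j, p j ≤ 1 := fun j => by
    simp only [hp, hc]
    rw [div_le_one hcS]
    exact_mod_cast card_filter_le _ _
  change ∏ j : ι, (1 - p j) ≤ 1/27
  -- size one
  by_cases h1 : ∃ v ∈ S, ∃ a, T v = {a}
  · obtain ⟨v, hv, a, ha⟩ := h1
    have h2 : p a = 1 := by
      simp only [hp, hc]
      rw [filter_true_of_mem]
      · exact div_self hcS.ne'
      · intro w hw
        obtain ⟨j, hj⟩ := hT v hv w hw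
        rw [mem_inter, ha, mem_singleton] at hj
        rw [← hj.1]; exact hj.2
    rw [prod_eq_zero (mem_univ a) (by rw [h2]; ring)]
    norm_num
  -- size two
  by_cases h2 : ∃ v ∈ S, ∃ a b, a ≠ b ∧ T v = {a, b}
  · obtain ⟨v, hv, a, b, hab, hvab⟩ := h2
    set A := S.filter (fun w => b ∉ T w) with hA
    set B := S.filter (fun w => a ∉ T w) with hB
    have hor : ∀ w ∈ S, a ∈ T w ∨ b ∈ T w := by
      intro w hw
      obtain ⟨j, hj⟩ := hT v hv w hw
      rw [mem_inter, hvab, mem_insert, mem_singleton] at hj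
      rcases hj with ⟨rfl | rfl, h⟩
      · left; exact h
      · right; exact h
    have hAcard : (A.card : ℝ) = S.card * (1 - p b) := by
      have h3 : (S.filter (fun w => b ∈ T w)).card + A.card = S.card :=
        card_filter_add_card_filter_not _
      have h4 : ((S.filter (fun w => b ∈ T w)).card : ℝ) + A.card = S.card := by
        exact_mod_cast h3
      simp only [hp, hc]
      field_simp
      linarith
    have hBcard : (B.card : ℝ) = S.card * (1 - p a) := by
      have h3 : (S.filter (fun w => a ∈ T w)).card + B.card = S.card :=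
        card_filter_add_card_filter_not _
      have h4 : ((S.filter (fun w => a ∈ T w)).card : ℝ) + B.card = S.card := by
        exact_mod_cast h3
      simp only [hp, hc]
      field_simp
      linarith
    set R : Finset ι := (univ.erase a).erase b with hR
    -- the double count
    have hdc : (A.card : ℝ) * B.card ≤ ∑ j ∈ R, ((A.filter (fun w => j ∈ T w)).card : ℝ) *
        ((B.filter (fun w => j ∈ T w)).card : ℝ) := by
      have h3 : ∀ w ∈ A, ∀ w' ∈ B, 1 ≤ (R.filter (fun j => j ∈ T w ∧ j ∈ T w')).card := by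
        intro w hw w' hw'
        simp only [hA, hB, mem_filter] at hw hw'
        obtain ⟨j, hj⟩ := hT w hw.1 w' hw'.1
        rw [mem_inter] at hj
        apply Nat.succ_le_of_lt
        apply card_pos.2
        refine ⟨j, ?_⟩
        simp only [hR, mem_filter, mem_erase, mem_univ, and_true]
        refine ⟨⟨?_, ?_⟩, hj⟩
        · rintro rfl; exact hw.2 hj.1
        · rintro rfl; exact hw'.2 hj.2
      have h4 : ∑ w ∈ A, ∑ w' ∈ B, 1 ≤
          ∑ w ∈ A, ∑ w' ∈ B, (R.filter (fun j => j ∈ T w ∧ j ∈ T w')).card :=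
        sum_le_sum fun w hw => sum_le_sum fun w' hw' => h3 w hw w' hw'
      have h5 : ∑ w ∈ A, ∑ w' ∈ B, (R.filter (fun j => j ∈ T w ∧ j ∈ T w')).card =
          ∑ j ∈ R, (A.filter (fun w => j ∈ T w)).card * (B.filter (fun w => j ∈ T w)).card := by
        simp_rw [card_filter]
        simp_rw [sum_mul_sum]
        rw [sum_comm' (s := R) (t := fun _ => A) (s' := fun _ => R) (t' := A) (by simp)]
        apply sum_congr rfl
        intro w _
        rw [sum_comm]
        apply sum_congr rfl
        intro j _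
        apply sum_congr rfl
        intro w' _
        by_cases h6 : j ∈ T w <;> by_cases h7 : j ∈ T w' <;> simp [h6, h7]
      rw [h5] at h4
      simp only [sum_const, smul_eq_mul, mul_one] at h4
      exact_mod_cast h4
    have hsq : (S.card : ℝ)^2 * (4 * ((1 - p a) * (1 - p b))) ≤
        (S.card : ℝ)^2 * ∑ j ∈ R, p j ^ 2 := by
      have h6 : ∀ j ∈ R, 4 * (((A.filter (fun w => j ∈ T w)).card : ℝ) *
        ((B.filter (fun w => j ∈ T w)).card : ℝ)) ≤ (S.card : ℝ)^2 * p j ^ 2 := by
        intro j _
        have h7 : (A.filter (fun w => j ∈ T w)).card + (B.filter (fun w => j ∈ T w)).card ≤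
            (S.filter (fun w => j ∈ T w)).card := by
          rw [← card_union_of_disjoint]
          · apply card_le_card
            intro w hw
            simp only [hA, hB, mem_union, mem_filter] at hw ⊢
            tauto
          · rw [disjoint_left]
            intro w h8 h9
            simp only [hA, hB, mem_filter] at h8 h9
            rcases hor w h8.1.1 with h | h
            · exact h9.1.2 h
            · exact h8.1.2 h
        have h8 : ((A.filter (fun w => j ∈ T w)).card : ℝ) +
            ((B.filter (fun w => j ∈ T w)).card : ℝ) ≤ c j := by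
          simp only [hc]
          exact_mod_cast h7
        have h9 : (S.card : ℝ)^2 * p j ^ 2 = (c j)^2 := by
          simp only [hp]
          field_simp
        rw [h9]
        have h10 : (0 : ℝ) ≤ ((A.filter (fun w => j ∈ T w)).card : ℝ) := by positivity
        have h11 : (0 : ℝ) ≤ ((B.filter (fun w => j ∈ T w)).card : ℝ) := by positivity
        nlinarith [sq_nonneg (((A.filter (fun w => j ∈ T w)).card : ℝ) -
            ((B.filter (fun w => j ∈ T w)).card : ℝ))]
      have h12 := sum_le_sum h6
      rw [← mul_sum, ← mul_sum] at h12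
      rw [hAcard, hBcard] at hdc
      calc (S.card : ℝ)^2 * (4 * ((1 - p a) * (1 - p b))) =
          4 * (S.card * (1 - p b) * (S.card * (1 - p a))) := by ring
        _ ≤ _ := by linarith
    have hsq' : 4 * ((1 - p a) * (1 - p b)) ≤ ∑ j ∈ R, p j ^ 2 :=
      le_of_mul_le_mul_left hsq (by positivity)
    have hprod : ∏ j : ι, (1 - p j) = (1 - p a) * ((1 - p b) * ∏ j ∈ R, (1 - p j)) := by
      rw [← mul_prod_erase univ _ (mem_univ a)]
      congr 1
      rw [← mul_prod_erase (univ.erase a) _ (by simp [Ne.symm hab] : b ∈ univ.erase a)]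
    have hfour := four_over R p (fun j _ => hp0 j) (fun j _ => hp1 j)
    have hpr : 0 ≤ ∏ j ∈ R, (1 - p j) := prod_nonneg fun j _ => by have := hp1 j; linarith
    rw [hprod]
    have := mul_le_mul_of_nonneg_right hsq' hpr
    linarith
  -- all sizes at least three
  · have h3 : ∀ v ∈ S, 3 ≤ (T v).card := by
      intro v hv
      by_contra hcon
      have hne : 0 < (T v).card := by
        apply card_pos.2
        obtain ⟨j, hj⟩ := hT v hv v hv
        exact ⟨j, (mem_inter.1 hj).1⟩
      have h4 : (T v).card = 1 ∨ (T v).card = 2 := by omega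
      rcases h4 with h4 | h4
      · exact h1 ⟨v, hv, card_eq_one.1 h4⟩
      · obtain ⟨a, b, hab, h5⟩ := card_eq_two.1 h4
        exact h2 ⟨v, hv, a, b, hab, h5⟩
    have hsum : 3 ≤ ∑ j, p j := by
      have h4 : ∑ v ∈ S, 3 ≤ ∑ v ∈ S, (T v).card := sum_le_sum h3
      have h5 : ∑ v ∈ S, (T v).card = ∑ j, (S.filter (fun v => j ∈ T v)).card := by
        simp_rw [card_filter]
        rw [sum_comm]
        apply sum_congr rfl
        intro v _
        simp
      rw [h5] at h4
      have h6 : (3 : ℝ) * S.card ≤ ∑ j, c j := by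
        simp only [hc]
        simp only [sum_const, smul_eq_mul] at h4
        rw [mul_comm]
        exact_mod_cast h4
      simp only [hp]
      rw [← sum_div, le_div_iff₀ hcS]
      exact h6
    have hsq : 1 ≤ ∑ j, p j ^ 2 := by
      have h4 : ∑ v ∈ S, ∑ w ∈ S, 1 ≤ ∑ v ∈ S, ∑ w ∈ S, (T v ∩ T w).card :=
        sum_le_sum fun v hv => sum_le_sum fun w hw => (hT v hv w hw).card_pos
      have h5 : ∑ v ∈ S, ∑ w ∈ S, (T v ∩ T w).card =
          ∑ j, (S.filter (fun v => j ∈ T v)).card * (S.filter (fun v => j ∈ T v)).card := by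
        have h50 : ∀ v w, (T v ∩ T w).card =
            ∑ j, (if j ∈ T v then 1 else 0) * (if j ∈ T w then 1 else 0) := by
          intro v w
          have h51 : (T v ∩ T w) = univ.filter (fun j => j ∈ T v ∧ j ∈ T w) := by
            ext; simp
          rw [h51, card_filter]
          apply sum_congr rfl
          intro j _
          by_cases h6 : j ∈ T v <;> by_cases h7 : j ∈ T w <;> simp [h6, h7]
        simp_rw [h50, card_filter]
        simp_rw [sum_mul_sum]
        rw [sum_comm' (s := univ) (t := fun _ => S) (s' := fun _ => univ) (t' := S) (by simp)]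
        apply sum_congr rfl
        intro v _
        rw [sum_comm]
      rw [h5] at h4
      have h6 : (S.card : ℝ)^2 ≤ ∑ j, c j ^ 2 := by
        simp only [hc]
        simp only [sum_const, smul_eq_mul, mul_one] at h4
        simp only [sq]
        exact_mod_cast h4
      simp only [hp, div_pow]
      rw [← sum_div, le_div_iff₀ (by positivity), one_mul]
      exact h6
    have hfin : ∏ j : ι, (1 - p j) ≤ Real.exp (-(∑ j, p j + (∑ j, p j ^ 2) / 2)) := by
      have h7 : -(∑ j, p j + (∑ j, p j ^ 2) / 2) = ∑ j, (-(p j + p j ^ 2 / 2)) := by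
        rw [sum_neg_distrib, sum_add_distrib, sum_div]
      rw [h7, Real.exp_sum]
      apply prod_le_prod
      · intro j _; have := hp1 j; linarith
      · intro j _; exact second_order (hp0 j) (hp1 j)
    refine hfin.trans ?_
    have h8 : Real.exp (-(∑ j, p j + (∑ j, p j ^ 2) / 2)) ≤ Real.exp (-(7/2)) := by
      apply Real.exp_le_exp.2; linarith
    refine h8.trans ?_
    rw [Real.exp_neg, inv_le_comm₀ (Real.exp_pos _) (by norm_num)]
    have h9 : Real.exp (7/2) = Real.exp 1 ^ 3 * Real.exp (1/2) := by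
      rw [← Real.exp_nat_mul, ← Real.exp_add]; congr 1; push_cast; ring
    have h10 : (27:ℝ)/10 ≤ Real.exp 1 := by have := Real.exp_one_gt_d9; linarith
    have h11 : (3:ℝ)/2 ≤ Real.exp (1/2) := by have := Real.add_one_le_exp (1/2 : ℝ); linarith
    rw [h9]
    calc ((1/27 : ℝ))⁻¹ ≤ (27/10)^3 * (3/2) := by norm_num
      _ ≤ _ := by gcongr

end family

end Pool.Agent.Work.MP_1ce445_co_56
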