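import Pool.Agent.Work.MP_1ce445_co_56.Basic

/-!
The construction: three dense factors, each sparse on one of three classes, and `m` sparse factors.
-/

namespace Pool.Agent.Work.MP_1ce445_co_56

open Finset

/-- the third index -/
def third (a b : ZMod 3) : ZMod 3 := if a = b then a + 1 else - a - b

lemma third_comm : ∀ a b, third a b = third b a := by decide

lemma third_ne : ∀ a b, third a b ≠ a := by decide

lemma third_spec : ∀ a b, b ≠ a → third b (-a - b) = a ∧ -a - b ≠ b := by decide

section construction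

variable {h : ℕ} [NeZero h] {e m : ℕ}

/-- the class of a residue -/
def block (i : ZMod h) : ZMod 3 := (i.val : ZMod 3)

/-- colour of an edge between the two sides, with shift `s` -/
def sh (m : ℕ) (s : ℕ) (a b : ZMod 3) : ZMod 3 ⊕ ℕ :=
  if s = 0 then .inl a else if s ≤ m then .inr s else .inl (third a b)

/-- colour of an edge to the extra vertex -/
def ex (m : ℕ) (i : ZMod h) : Bool → ZMod 3 ⊕ ℕ
  | false => if 1 ≤ i.val ∧ i.val ≤ m then .inr i.val else .inl (block i + 1)
  | true => .inl (block i + 1)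

/-- the colouring -/
def cl (m : ℕ) : (ZMod h × Bool) ⊕ Fin e → (ZMod h × Bool) ⊕ Fin e → ZMod 3 ⊕ ℕ
  | .inl (i, false), .inl (j, true) => sh m (j - i).val (block i) (block j)
  | .inl (j, true), .inl (i, false) => sh m (j - i).val (block i) (block j)
  | .inl (i, false), .inl (j, false) => .inl (third (block i) (block j))
  | .inl (i, true), .inl (j, true) => .inl (third (block i) (block j))
  | .inl (i, b), .inr _ => ex m i b
  | .inr _, .inl (i, b) => ex m i b
  | .inr _, .inr _ => .inl 0

lemma cl_symm (x y : (ZMod h × Bool) ⊕ Fin e) : cl m x y = cl m y x := by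
  rcases x with ⟨i, _ | _⟩ | z <;> rcases y with ⟨j, _ | _⟩ | w <;> simp [cl, third_comm]

/-- colour names -/
def em {m : ℕ} : ZMod 3 ⊕ Fin m → ZMod 3 ⊕ ℕ
  | .inl a => .inl a
  | .inr s => .inr (s.val + 1)

lemma em_injective : Function.Injective (em (m := m)) := by
  rintro (a | s) (b | t) hab
  · simp only [em, Sum.inl.injEq] at hab; rw [hab]
  · simp [em] at hab
  · simp [em] at hab
  · simp only [em, Sum.inr.injEq, add_left_inj] at hab
    congr 1; exact Fin.ext hab

/-- colour classes -/
def gr (c : ZMod 3 ⊕ Fin m) : SimpleGraph ((ZMod h × Bool) ⊕ Fin e) where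
  Adj x y := x ≠ y ∧ cl m x y = em c
  symm := ⟨fun x y h => ⟨h.1.symm, by rw [cl_symm]; exact h.2⟩⟩
  loopless := ⟨fun _ h => h.1 rfl⟩

lemma exists_block (h3 : 3 ≤ h) (c : ZMod 3) : ∃ i : ZMod h, block i = c := by
  refine ⟨(c.val : ZMod h), ?_⟩
  unfold block
  have hc : c.val < 3 := ZMod.val_lt c
  rw [ZMod.val_natCast_of_lt (by omega)]
  exact ZMod.natCast_zmod_val c

lemma val_shift (hm : m < h) (s : Fin m) : (((s.val + 1 : ℕ) : ZMod h)).val = s.val + 1 :=
  ZMod.val_natCast_of_lt (by have := s.isLt; omega)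

lemma gr_minDeg (h3 : 3 ≤ h) (hm : m < h) (c : ZMod 3 ⊕ Fin m)
    (x : (ZMod h × Bool) ⊕ Fin e) : ∃ y, (gr c).Adj x y := by
  rcases c with a | s
  · rcases x with ⟨i, b⟩ | z
    · by_cases hi : block i = a
      · refine ⟨.inl (i, !b), ?_, ?_⟩
        · cases b <;> simp
        · cases b <;> simp [cl, sh, em, hi]
      · obtain ⟨j, hj⟩ := exists_block h3 (-a - block i)
        obtain ⟨h1, h2⟩ := third_spec a (block i) hi
        refine ⟨.inl (j, b), ?_, ?_⟩
        · intro hij
          simp only [Sum.inl.injEq, Prod.mk.injEq, and_true] at hij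
          rw [← hj, hij] at h2
          exact h2 rfl
        · cases b <;> simp [cl, em, hj, h1]
    · obtain ⟨i, hi⟩ := exists_block h3 (a - 1)
      refine ⟨.inl (i, true), by simp, ?_⟩
      simp [cl, ex, em, hi]
  · have hs := val_shift hm s
    have hsm := s.isLt
    rcases x with ⟨i, _ | _⟩ | z
    · refine ⟨.inl (i + ((s.val + 1 : ℕ) : ZMod h), true), by simp, ?_⟩
      simp only [cl, add_sub_cancel_left, hs, sh, em]
      rw [if_neg (by omega), if_pos (by omega)]
    · refine ⟨.inl (i - ((s.val + 1 : ℕ) : ZMod h), false), by simp, ?_⟩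
      simp only [cl, sub_sub_cancel, hs, sh, em]
      rw [if_neg (by omega), if_pos (by omega)]
    · refine ⟨.inl (((s.val + 1 : ℕ) : ZMod h), false), by simp, ?_⟩
      simp only [cl, ex, hs, em]
      rw [if_pos ⟨by omega, by omega⟩]

lemma sh_cases (s : ℕ) (a b : ZMod 3) :
    (∃ c, sh m s a b = .inl c) ∨ (1 ≤ s ∧ s ≤ m ∧ sh m s a b = .inr s) := by
  unfold sh
  split_ifs with h1 h2
  · left; exact ⟨_, rfl⟩
  · right; exact ⟨by omega, h2, rfl⟩
  · left; exact ⟨_, rfl⟩

lemma em_inr {s : ℕ} (h1 : 1 ≤ s) (h2 : s ≤ m) : ∃ c : ZMod 3 ⊕ Fin m, em c = .inr s :=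
  ⟨.inr ⟨s - 1, by omega⟩, by simp only [em]; congr 1; omega⟩

lemma cl_mem (x y : (ZMod h × Bool) ⊕ Fin e) : ∃ c : ZMod 3 ⊕ Fin m, cl m x y = em c := by
  have key : ∀ s a b, ∃ c : ZMod 3 ⊕ Fin m, sh m s a b = em c := by
    intro s a b
    rcases sh_cases (m := m) s a b with ⟨c, hc⟩ | ⟨h1, h2, h3⟩
    · exact ⟨.inl c, hc⟩
    · obtain ⟨c, hc⟩ := em_inr h1 h2
      exact ⟨c, by rw [h3, hc]⟩
  have key2 : ∀ (i : ZMod h) b, ∃ c : ZMod 3 ⊕ Fin m, ex m i b = em c := by
    intro i b
    cases b
    · simp only [ex]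
      split_ifs with h1
      · obtain ⟨c, hc⟩ := em_inr h1.1 h1.2
        exact ⟨c, hc.symm⟩
      · exact ⟨.inl _, rfl⟩
    · exact ⟨.inl _, rfl⟩
  rcases x with ⟨i, _ | _⟩ | z <;> rcases y with ⟨j, _ | _⟩ | w <;> simp only [cl]
  · exact ⟨.inl _, rfl⟩
  · exact key _ _ _
  · exact key2 _ _
  · exact key _ _ _
  · exact ⟨.inl _, rfl⟩
  · exact key2 _ _
  · exact key2 _ _
  · exact key2 _ _
  · exact ⟨.inl 0, rfl⟩

lemma gr_factorization (h3 : 3 ≤ h) (hm : m < h) :
    IsFactorization (gr (h := h) (e := e) (m := m)) := by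
  apply IsFactorization.of_adj
  · rintro i j x y ⟨-, h1⟩ ⟨-, h2⟩
    exact em_injective (h1.symm.trans h2)
  · intro x y hxy
    obtain ⟨c, hc⟩ := cl_mem (m := m) x y
    exact ⟨c, hxy, hc⟩
  · exact gr_minDeg h3 hm

/-- dense colours -/
lemma dense_bound (h3 : 3 ≤ h) (hm : m < h) (a : ZMod 3) :
    2 * (h / 3) ≤ gammaT (gr (h := h) (e := e) (m := m) (.inl a)) := by
  have ha : a.val < 3 := ZMod.val_lt a
  have hq : 3 * (h / 3) ≤ h := Nat.mul_div_le h 3
  have hlt : ∀ t : Fin (h / 3), 3 * t.val + a.val < h := fun t => by have := t.isLt; omega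
  have hval : ∀ t : Fin (h / 3), (((3 * t.val + a.val : ℕ) : ZMod h)).val = 3 * t.val + a.val :=
    fun t => ZMod.val_natCast_of_lt (hlt t)
  have hbl : ∀ t : Fin (h / 3), block (((3 * t.val + a.val : ℕ) : ZMod h)) = a := by
    intro t
    unfold block
    rw [hval]
    push_cast
    have : (3 : ZMod 3) = 0 := by decide
    rw [this, zero_mul, zero_add]
    exact ZMod.natCast_zmod_val a
  have key := card_le_gammaT (G := gr (h := h) (e := e) (m := m) (.inl a))
    (gr_minDeg h3 hm (.inl a)) (α := Fin (h / 3) × Bool)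
    (fun x => .inl (((3 * x.1.val + a.val : ℕ) : ZMod h), x.2))
    (fun x => .inl (((3 * x.1.val + a.val : ℕ) : ZMod h), !x.2)) ?_ ?_
  · simpa [mul_comm] using key
  · rintro ⟨t, b⟩ ⟨t', b'⟩ hxy
    simp only [Sum.inl.injEq, Prod.mk.injEq] at hxy
    have h4 := congrArg ZMod.val hxy.1
    rw [hval, hval] at h4
    have h5 : t = t' := Fin.ext (by omega)
    have h6 : b = b' := by simpa using hxy.2
    rw [h5, h6]
  · rintro ⟨t, b⟩ w ⟨h4, h5⟩
    have h6 := hbl t
    set i : ZMod h := ((3 * t.val + a.val : ℕ) : ZMod h) with hi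
    rcases b with _ | _ <;> rcases w with ⟨j, _ | _⟩ | z
    · simp only [cl, em, Sum.inl.injEq] at h5
      rw [h6] at h5
      exact absurd h5 (third_ne _ _)
    · simp only [cl, em, sh] at h5
      split_ifs at h5 with h7 h8
      · have : j - i = 0 := by rwa [ZMod.val_eq_zero] at h7
        have hji : j = i := by rwa [sub_eq_zero] at this
        simp [hji]
      · simp only [Sum.inl.injEq] at h5
        rw [h6] at h5
        exact absurd h5 (third_ne _ _)
    · simp only [cl, em, ex] at h5
      split_ifs at h5 with h7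
      simp only [Sum.inl.injEq] at h5
      rw [h6] at h5
      exfalso
      revert h5
      generalize a = c
      revert c
      decide
    · simp only [cl, em, sh] at h5
      split_ifs at h5 with h7 h8
      · have : i - j = 0 := by rwa [ZMod.val_eq_zero] at h7
        have hji : i = j := by rwa [sub_eq_zero] at this
        simp [hji]
      · simp only [Sum.inl.injEq] at h5
        rw [h6, third_comm] at h5
        exact absurd h5 (third_ne _ _)
    · simp only [cl, em, Sum.inl.injEq] at h5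
      rw [h6] at h5
      exact absurd h5 (third_ne _ _)
    · simp only [cl, em, ex, Sum.inl.injEq] at h5
      rw [h6] at h5
      exfalso
      revert h5
      generalize a = c
      revert c
      decide

/-- sparse colours -/
lemma sparse_bound (h3 : 3 ≤ h) (hm : m < h) (s : Fin m) :
    2 * h - 1 ≤ gammaT (gr (h := h) (e := e) (m := m) (.inr s)) := by
  classical
  set r : ZMod h := ((s.val + 1 : ℕ) : ZMod h) with hr
  have hrv : r.val = s.val + 1 := val_shift hm s
  have key := card_le_gammaT (G := gr (h := h) (e := e) (m := m) (.inr s))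
    (gr_minDeg h3 hm (.inr s)) (α := {x : ZMod h × Bool // x ≠ (r, false)})
    (fun x => .inl x.1)
    (fun x => .inl (if x.1.2 = true then (x.1.1 - r, false) else (x.1.1 + r, true))) ?_ ?_
  · have hc : Fintype.card {x : ZMod h × Bool // x ≠ (r, false)} = 2 * h - 1 := by
      rw [Fintype.card_subtype_compl, Fintype.card_subtype_eq]
      simp [ZMod.card, mul_comm]
    rwa [hc] at key
  · rintro ⟨⟨i, b⟩, hx⟩ ⟨⟨i', b'⟩, hx'⟩ hxy
    cases b <;> cases b' <;> simp_all
  · rintro ⟨⟨i, b⟩, hx⟩ w ⟨h4, h5⟩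
    rcases b with _ | _ <;> rcases w with ⟨j, _ | _⟩ | z
    · simp [cl, em] at h5
    · simp only [cl, em, sh] at h5
      split_ifs at h5 with h7 h8
      simp only [Sum.inr.injEq] at h5
      have : j - i = r := by
        apply ZMod.val_injective
        rw [h5, hrv]
      simp [← this]
    · simp only [cl, em, ex] at h5
      split_ifs at h5 with h7
      simp only [Sum.inr.injEq] at h5
      exfalso
      apply hx
      have : i = r := by
        apply ZMod.val_injective
        rw [h5, hrv]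
      rw [this]
    · simp only [cl, em, sh] at h5
      split_ifs at h5 with h7 h8
      simp only [Sum.inr.injEq] at h5
      have : i - j = r := by
        apply ZMod.val_injective
        rw [h5, hrv]
      simp [← this]
    · simp [cl, em] at h5
    · simp [cl, em, ex] at h5

end construction

/-- The lower bound. -/
theorem lower {n k : ℕ} (hn : 6 ≤ n) (hk : 3 ≤ k) (hkn : k - 3 < n / 2) :
    (2 * (n / 2 / 3)) ^ 3 * (2 * (n / 2) - 1) ^ (k - 3) ≤ P n k := by
  have : NeZero (n / 2) := ⟨by omega⟩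
  have h3 : 3 ≤ n / 2 := by omega
  have h1 := le_P (V := (ZMod (n / 2) × Bool) ⊕ Fin (n % 2)) (ι := ZMod 3 ⊕ Fin (k - 3))
    (n := n) (k := k) (by simp [ZMod.card]; omega) (by simp [ZMod.card]; omega)
    (gr_factorization h3 hkn)
  refine le_trans ?_ h1
  rw [Fintype.prod_sum_type]
  apply Nat.mul_le_mul
  · calc (2 * (n / 2 / 3)) ^ 3 = ∏ _a : ZMod 3, 2 * (n / 2 / 3) := by simp [ZMod.card]
      _ ≤ _ := Finset.prod_le_prod' fun a _ => dense_bound h3 hkn a
  · calc (2 * (n / 2) - 1) ^ (k - 3) = ∏ _s : Fin (k - 3), (2 * (n / 2) - 1) := by simp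
      _ ≤ _ := Finset.prod_le_prod' fun s _ => sparse_bound h3 hkn s

end Pool.Agent.Work.MP_1ce445_co_56
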