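import Pool.Agent.Work.MP_1ce445_co_56.Upper
import Pool.Agent.Work.MP_1ce445_co_56.Lower

/-!
The limit of `P n k / n ^ k` for fixed `k ≥ 3`.
-/

namespace Pool.Agent.Work.MP_1ce445_co_56

open Filter Topology

theorem limit {k : ℕ} (hk : 3 ≤ k) :
    Tendsto (fun n : ℕ => (P n k : ℝ) / (n : ℝ) ^ k) atTop (𝓝 (1 / 27)) := by
  obtain ⟨m, rfl⟩ : ∃ m, k = m + 3 := ⟨k - 3, by omega⟩
  -- the lower comparison function
  have hinv : Tendsto (fun n : ℕ => ((n : ℝ))⁻¹) atTop (𝓝 0) :=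
    tendsto_inv_atTop_zero.comp tendsto_natCast_atTop_atTop
  have hL : Tendsto (fun n : ℕ => ((1 - 5 * ((n : ℝ))⁻¹) / 3) ^ 3 * (1 - 2 * ((n : ℝ))⁻¹) ^ m)
      atTop (𝓝 (1 / 27)) := by
    have h1 : Tendsto (fun n : ℕ => ((1 - 5 * ((n : ℝ))⁻¹) / 3) ^ 3 *
        (1 - 2 * ((n : ℝ))⁻¹) ^ m) atTop (𝓝 (((1 - 5 * 0) / 3) ^ 3 * (1 - 2 * 0) ^ m)) := by
      apply Tendsto.mul
      · exact (((tendsto_const_nhds.sub (hinv.const_mul 5))).div_const 3).pow 3
      · exact ((tendsto_const_nhds.sub (hinv.const_mul 2))).pow m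
    have h2 : ((1 - 5 * 0 : ℝ) / 3) ^ 3 * (1 - 2 * 0) ^ m = 1 / 27 := by norm_num
    rwa [h2] at h1
  rw [tendsto_order]
  constructor
  · intro a ha
    filter_upwards [hL.eventually (lt_mem_nhds ha), eventually_ge_atTop (2 * m + 6)] with n h1 h2
    refine h1.trans_le ?_
    have hnpos : (0 : ℝ) < n := by
      have : 0 < n := by omega
      exact_mod_cast this
    rw [le_div_iff₀ (by positivity)]
    have h3 := lower (n := n) (k := m + 3) (by omega) (by omega) (by omega)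
    have h4 : (((2 * (n / 2 / 3)) ^ 3 * (2 * (n / 2) - 1) ^ (m + 3 - 3) : ℕ) : ℝ) ≤
        (P n (m + 3) : ℝ) := by exact_mod_cast h3
    refine le_trans ?_ h4
    push_cast
    rw [pow_add]
    have h5 : ((1 - 5 * ((n : ℝ))⁻¹) / 3) ^ 3 * (1 - 2 * ((n : ℝ))⁻¹) ^ m * ((n : ℝ) ^ m *
        (n : ℝ) ^ 3) = (((n : ℝ) - 5) / 3) ^ 3 * ((n : ℝ) - 2) ^ m := by
      have e1 : ((n : ℝ) - 5) / 3 = ((1 - 5 * ((n : ℝ))⁻¹) / 3) * n := by field_simp
      have e2 : (n : ℝ) - 2 = (1 - 2 * ((n : ℝ))⁻¹) * n := by field_simp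
      rw [e1, e2, mul_pow, mul_pow]
      ring
    rw [h5]
    have h6 : (6 : ℝ) ≤ n := by
      have : 6 ≤ n := by omega
      exact_mod_cast this
    have h7 : ((n : ℝ) - 5) / 3 ≤ 2 * ((n / 2 / 3 : ℕ) : ℝ) := by
      have : n ≤ 6 * (n / 2 / 3) + 5 := by omega
      have h8 : (n : ℝ) ≤ 6 * ((n / 2 / 3 : ℕ) : ℝ) + 5 := by exact_mod_cast this
      linarith
    have h9 : (n : ℝ) - 2 ≤ ((2 * (n / 2) - 1 : ℕ) : ℝ) := by
      have : n ≤ (2 * (n / 2) - 1) + 2 := by omega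
      have h8 : (n : ℝ) ≤ ((2 * (n / 2) - 1 : ℕ) : ℝ) + 2 := by exact_mod_cast this
      linarith
    have h10 : 0 ≤ ((n : ℝ) - 5) / 3 := by linarith
    have h11 : 0 ≤ (n : ℝ) - 2 := by linarith
    exact mul_le_mul (pow_le_pow_left₀ h10 h7 3) (pow_le_pow_left₀ h11 h9 m)
      (by positivity) (by positivity)
  · intro a ha
    obtain ⟨N, hN⟩ := eventually_upper (m + 3) (ε := (a - 1/27) / 2) (by linarith)
    filter_upwards [eventually_ge_atTop (max N 1)] with n hn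
    have h1 := hN n ((le_max_left _ _).trans hn)
    have hn1 : 1 ≤ n := (le_max_right _ _).trans hn
    have hnpos : (0 : ℝ) < n := by exact_mod_cast hn1
    rw [div_lt_iff₀ (by positivity)]
    refine h1.trans_lt ?_
    apply mul_lt_mul_of_pos_right _ (by positivity)
    linarith

end Pool.Agent.Work.MP_1ce445_co_56
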