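import Pool.Agent.Work.MP_1ce445_co_56.Basic

/-!
The bound from the inequality of arithmetic and geometric means is never attained.
-/

namespace Pool.Agent.Work.MP_1ce445_co_56

open Finset

section single

set_option linter.unusedSectionVars false

variable {V : Type*} [Fintype V] [DecidableEq V]

open Classical in
/-- the degree of a vertex -/
noncomputable def dg (G : SimpleGraph V) (v : V) : ℕ := (univ.filter (fun w => G.Adj v w)).card

open Classical in
/-- the non-neighbours of `u` (with `u` itself) -/
noncomputable def nn (G : SimpleGraph V) (u : V) : Finset V := univ.filter (fun v => ¬ G.Adj v u)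

open Classical in
/-- the neighbours of `z` in `T` -/
noncomputable def nb (G : SimpleGraph V) (T : Finset V) (z : V) : Finset V :=
  T.filter (fun y => G.Adj y z)

lemma card_nn (G : SimpleGraph V) (u : V) : (nn G u).card + dg G u = Fintype.card V := by
  classical
  unfold nn dg
  have : (univ.filter (fun w => G.Adj u w)) = univ.filter (fun w => G.Adj w u) := by
    ext w; simp [SimpleGraph.adj_comm]
  rw [this, add_comm, card_filter_add_card_filter_not, card_univ]

lemma sum_dg (G : SimpleGraph V) (T : Finset V) :
    ∑ y ∈ T, dg G y = ∑ z, (nb G T z).card := by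
  classical
  unfold dg nb
  simp_rw [card_filter]
  rw [sum_comm]

lemma L1 {G : SimpleGraph V} (h : ∀ v, ∃ w, G.Adj v w) (u : V) :
    gammaT G + dg G u ≤ Fintype.card V + 1 := by
  classical
  have h1 := gammaT_le_add h {u}
  have h2 := card_nn G u
  have h3 : (univ.filter (fun v => ∀ z ∈ ({u} : Finset V), ¬ G.Adj v z)) = nn G u := by
    unfold nn; ext; simp
  rw [h3] at h1
  simp at h1
  omega

lemma L2 {G : SimpleGraph V} (h : ∀ v, ∃ w, G.Adj v w) (u z : V) :
    gammaT G + dg G u + (nb G (nn G u) z).card ≤ Fintype.card V + 2 := by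
  classical
  have h1 := gammaT_le_add h {u, z}
  have h2 := card_nn G u
  have h3 : (univ.filter (fun v => ∀ z' ∈ ({u, z} : Finset V), ¬ G.Adj v z')) =
      (nn G u).filter (fun y => ¬ G.Adj y z) := by
    unfold nn; ext; simp
  rw [h3] at h1
  have h4 : ((nn G u).filter (fun y => G.Adj y z)).card +
    ((nn G u).filter (fun y => ¬ G.Adj y z)).card = (nn G u).card :=
    card_filter_add_card_filter_not _
  have h5 : ({u, z} : Finset V).card ≤ 2 := card_le_two
  unfold nb
  omega

open Classical in
lemma L3 {G : SimpleGraph V} (h : ∀ v, ∃ w, G.Adj v w) (u z z' : V) :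
    gammaT G + dg G u + (nb G (nn G u) z).card +
      (nb G ((nn G u).filter (fun y => ¬ G.Adj y z)) z').card ≤ Fintype.card V + 3 := by
  have h1 := gammaT_le_add h {u, z, z'}
  have h2 := card_nn G u
  have h3 : (univ.filter (fun v => ∀ w ∈ ({u, z, z'} : Finset V), ¬ G.Adj v w)) =
      ((nn G u).filter (fun y => ¬ G.Adj y z)).filter (fun y => ¬ G.Adj y z') := by
    unfold nn; ext; simp [and_assoc]
  rw [h3] at h1
  have h4 : ((nn G u).filter (fun y => G.Adj y z)).card +
    ((nn G u).filter (fun y => ¬ G.Adj y z)).card = (nn G u).card :=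
    card_filter_add_card_filter_not _
  have h6 : (((nn G u).filter (fun y => ¬ G.Adj y z)).filter (fun y => G.Adj y z')).card +
    (((nn G u).filter (fun y => ¬ G.Adj y z)).filter (fun y => ¬ G.Adj y z')).card =
      ((nn G u).filter (fun y => ¬ G.Adj y z)).card :=
    card_filter_add_card_filter_not _
  have h5 : ({u, z, z'} : Finset V).card ≤ 3 := card_le_three
  unfold nb
  omega

lemma nb_self (G : SimpleGraph V) (u : V) : nb G (nn G u) u = ∅ := by
  classical
  unfold nb nn
  ext v; simp

/-- counting with one vertex having no neighbour in `T` -/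
lemma sum_dg_le {G : SimpleGraph V} {T : Finset V} {m : ℕ} (h : ∀ z, (nb G T z).card ≤ m)
    {A : Finset V} (hA : ∀ z ∈ A, (nb G T z).card = 0) :
    ∑ y ∈ T, dg G y + m * A.card ≤ m * Fintype.card V := by
  classical
  rw [sum_dg]
  have : ∑ z, (nb G T z).card ≤ ∑ z, if z ∈ A then 0 else m := by
    apply sum_le_sum
    intro z _
    split_ifs with hz
    · exact (hA z hz).le
    · exact h z
  have h2 : ∑ z, (if z ∈ A then 0 else m) = m * (Aᶜ).card := by
    rw [← sum_filter_not_add_sum_filter univ (fun z => z ∈ A)]
    rw [sum_ite_of_false (by simp), sum_ite_of_true (by simp)]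
    simp only [sum_const, smul_eq_mul, mul_zero, add_zero]
    rw [mul_comm]
    congr 2
    ext; simp
  have h3 : (Aᶜ).card + A.card = Fintype.card V := card_compl_add_card A
  calc _ ≤ m * (Aᶜ).card + m * A.card := by rw [← h2]; exact Nat.add_le_add_right this _
    _ = m * Fintype.card V := by rw [← mul_add, h3]

/-- the deficiency bound -/
lemma eps {G : SimpleGraph V} (h : ∀ v, ∃ w, G.Adj v w) (r : ℤ)
    (hr : r = Fintype.card V + 1 - gammaT G) :
    (Fintype.card V : ℤ) ≤ ∑ v, (r - dg G v) ∨
      (Fintype.card V - r) * r - (Fintype.card V - 1) ≤ ∑ v, (r - dg G v) := by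
  classical
  have hL1 := L1 h
  by_cases hu : ∃ u, gammaT G + dg G u = Fintype.card V + 1
  · right
    obtain ⟨u, hu⟩ := hu
    have h1 : ∀ z, (nb G (nn G u) z).card ≤ 1 := by
      intro z
      have := L2 h u z
      omega
    have h2 := sum_dg_le h1 (A := {u}) (by
      intro z hz
      rw [mem_singleton] at hz
      subst hz
      rw [nb_self]; rfl)
    have h3 := card_nn G u
    have hru : r = dg G u := by
      rw [hr]
      have : (gammaT G : ℤ) + dg G u = Fintype.card V + 1 := by exact_mod_cast hu
      linarith
    have h4 : ∑ v ∈ nn G u, (r - dg G v : ℤ) ≤ ∑ v, (r - dg G v : ℤ) := by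
      apply sum_le_sum_of_subset_of_nonneg (subset_univ _)
      intro i _ _
      have := hL1 i
      omega
    refine le_trans ?_ h4
    rw [sum_sub_distrib, sum_const, nsmul_eq_mul]
    have h5 : ((nn G u).card : ℤ) = Fintype.card V - r := by
      rw [hru]
      have : ((nn G u).card : ℤ) + dg G u = Fintype.card V := by exact_mod_cast h3
      linarith
    rw [h5]
    have h6 : (∑ y ∈ nn G u, (dg G y : ℤ)) + 1 ≤ Fintype.card V := by
      simp only [card_singleton, mul_one, one_mul] at h2
      exact_mod_cast h2
    linarith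
  · left
    push Not at hu
    have : ∑ v : V, (1 : ℤ) ≤ ∑ v, (r - dg G v : ℤ) := by
      apply sum_le_sum
      intro v _
      have h1 := hL1 v
      have h2 := hu v
      omega
    simpa using this

/-- the regular case -/
lemma regular {G : SimpleGraph V} (h : ∀ v, ∃ w, G.Adj v w) {n d : ℕ}
    (hn : Fintype.card V = n) (h8 : 8 ≤ n) (hd : ∀ v, dg G v = d) (hd2 : 2 ≤ d)
    (hdn : d + 3 ≤ n) : gammaT G + d + 1 ≤ n := by
  classical
  by_contra hcon
  have hne : Nonempty V := by
    rw [← Fintype.card_pos_iff]; omega
  obtain ⟨u⟩ := hne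
  have h2 := L2 h u
  have h3 := L3 h u
  simp only [hd, hn] at h2 h3
  have hY := card_nn G u
  rw [hd, hn] at hY
  have hle2 : ∀ z, (nb G (nn G u) z).card ≤ 2 := by
    intro z
    have := h2 z
    omega
  have hsum2 := sum_dg_le hle2 (A := {u}) (by
      intro z hz
      rw [mem_singleton] at hz
      subst hz
      rw [nb_self]; rfl)
  simp only [hd, sum_const, smul_eq_mul, hn, card_singleton, mul_one] at hsum2
  obtain ⟨c, rfl⟩ : ∃ c, n = d + c := ⟨n - d, by omega⟩
  have hYc : (nn G u).card = c := by omega
  rw [hYc] at hsum2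
  by_cases hz : ∀ z, (nb G (nn G u) z).card ≤ 1
  · have hsum1 := sum_dg_le hz (A := {u}) (by
      intro z hz
      rw [mem_singleton] at hz
      subst hz
      rw [nb_self]; rfl)
    simp only [hd, sum_const, smul_eq_mul, hn, card_singleton, mul_one, one_mul, hYc] at hsum1
    have : 3 ≤ c := by omega
    nlinarith
  · push Not at hz
    obtain ⟨z1, hz1⟩ := hz
    have hz1' : (nb G (nn G u) z1).card = 2 := by
      have := hle2 z1
      omega
    set Y' := (nn G u).filter (fun y => ¬ G.Adj y z1) with hY'
    have hY'c : Y'.card + 2 = c := by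
      have h4 : ((nn G u).filter (fun y => G.Adj y z1)).card +
        ((nn G u).filter (fun y => ¬ G.Adj y z1)).card = (nn G u).card :=
        card_filter_add_card_filter_not _
      have h5 : (nb G (nn G u) z1) = (nn G u).filter (fun y => G.Adj y z1) := rfl
      rw [← h5, hz1', ← hY', hYc] at h4
      omega
    have hle1 : ∀ z, (nb G Y' z).card ≤ 1 := by
      intro z
      have := h3 z1 z
      rw [hz1', ← hY'] at this
      omega
    have huz : u ≠ z1 := by
      rintro rfl
      rw [nb_self] at hz1'
      simp at hz1'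
    have hsum3 := sum_dg_le hle1 (A := {u, z1}) (by
      intro z hz
      rw [mem_insert, mem_singleton] at hz
      rw [card_eq_zero]
      rcases hz with rfl | rfl
      · rw [← subset_empty, ← nb_self G z]
        unfold nb
        exact filter_subset_filter _ (filter_subset _ _)
      · unfold nb
        ext v
        simp only [mem_filter, hY', notMem_empty, iff_false]
        rintro ⟨⟨_, h1⟩, h2⟩
        exact h1 h2)
    simp only [hd, sum_const, smul_eq_mul, hn, card_pair huz, one_mul] at hsum3
    by_cases hc : 4 ≤ c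
    · obtain ⟨b, rfl⟩ : ∃ b, c = b + 4 := ⟨c - 4, by omega⟩
      have : Y'.card = b + 2 := by omega
      rw [this] at hsum3
      nlinarith
    · have : c = 3 := by omega
      subst this
      omega

end single

section main

variable {V ι : Type*} [Fintype V] [DecidableEq V] [Fintype ι]

/-- The combinatorial core: the sum bound cannot be attained with all terms equal, and no
smaller excess is possible. -/
lemma core {G : ι → SimpleGraph V} (hG : IsFactorization G) {n k : ℕ}
    (hn : Fintype.card V = n) (hk : Fintype.card ι = k) (h7 : 7 ≤ n) (h3 : 3 ≤ k)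
    (hkn : k + 2 ≤ n) (hsum : (k - 1) * (n + 1) ≤ ∑ i, gammaT (G i))
    (heq : ∑ i, gammaT (G i) = (k - 1) * (n + 1) → ∀ i j, gammaT (G i) = gammaT (G j)) :
    False := by
  classical
  set r : ι → ℤ := fun i => n + 1 - gammaT (G i) with hr
  have hdsum : ∀ v, ∑ i, (dg (G i) v : ℤ) = n - 1 := by
    intro v
    have := sum_degree hG v
    have h1 : ∑ i, dg (G i) v = n - 1 := by
      rw [← hn, ← this]
      apply sum_congr rfl
      intro i _
      unfold dg
      congr
    have h2 : (∑ i, dg (G i) v : ℕ) + 1 = n := by omega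
    have h3 : (∑ i, (dg (G i) v : ℤ)) + 1 = n := by exact_mod_cast h2
    linarith
  have hL1 : ∀ i v, (dg (G i) v : ℤ) ≤ r i := by
    intro i v
    have := L1 (hG.minDeg i) v
    rw [hn] at this
    simp only [hr]
    omega
  have hdpos : ∀ i v, 1 ≤ (dg (G i) v : ℤ) := by
    intro i v
    obtain ⟨w, hw⟩ := hG.minDeg i v
    have : 0 < dg (G i) v := by
      unfold dg
      exact card_pos.2 ⟨w, by simpa using hw⟩
    omega
  have hne : Nonempty V := by
    rw [← Fintype.card_pos_iff]; omega
  obtain ⟨v0⟩ := hne
  have hrpos : ∀ i, 1 ≤ r i := fun i => (hdpos i v0).trans (hL1 i v0)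
  have hkk : ((k - 1 : ℕ) : ℤ) = k - 1 := by
    rw [Nat.cast_sub (by omega)]; simp
  have hrsum : ∑ i, r i = k * (n + 1) - ∑ i, (gammaT (G i) : ℤ) := by
    simp only [hr, sum_sub_distrib]
    simp [hk]
  have hsumZ : ((k : ℤ) - 1) * (n + 1) ≤ ∑ i, (gammaT (G i) : ℤ) := by
    rw [← hkk]
    exact_mod_cast hsum
  have hR1 : ∑ i, r i ≤ n + 1 := by
    rw [hrsum]; linarith
  have hR0 : (n : ℤ) - 1 ≤ ∑ i, r i := by
    rw [← hdsum v0]
    exact sum_le_sum fun i _ => hL1 i v0
  -- double sum
  set E : ℤ := ∑ i, r i - (n - 1) with hE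
  have hdouble : ∑ i, ∑ v, (r i - dg (G i) v) = n * E := by
    rw [sum_comm]
    simp only [sum_sub_distrib, hdsum]
    simp only [sum_const, card_univ, hn, nsmul_eq_mul, hE]
    ring
  have heps : ∀ i, (n : ℤ) ≤ ∑ v, (r i - dg (G i) v) ∨
      (n - r i) * r i - (n - 1) ≤ ∑ v, (r i - dg (G i) v) := by
    intro i
    have := eps (hG.minDeg i) (r i) (by simp only [hr, hn])
    rw [hn] at this
    exact this
  have hepsnn : ∀ i, 0 ≤ ∑ v, (r i - dg (G i) v) := fun i =>
    sum_nonneg fun v _ => by have := hL1 i v; linarith
  -- the sum of the other r's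
  have hother : ∀ i, r i + (k - 1) ≤ ∑ j, r j := by
    intro i
    rw [← add_sum_erase univ r (mem_univ i)]
    have : ∑ j ∈ univ.erase i, (1 : ℤ) ≤ ∑ j ∈ univ.erase i, r j :=
      sum_le_sum fun j _ => hrpos j
    rw [sum_const, card_erase_of_mem (mem_univ _), card_univ, hk, nsmul_eq_mul, mul_one, hkk]
      at this
    linarith
  have hEcases : E = 0 ∨ E = 1 ∨ E = 2 := by omega
  have hbig : ∀ i, 2 ≤ r i → r i ≤ n - 2 → (n : ℤ) - 3 ≤ ∑ v, (r i - dg (G i) v) := by
    intro i h1 h2
    rcases heps i with h | h
    · linarith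
    · nlinarith
  have hk3 : (3 : ℤ) ≤ k := by exact_mod_cast h3
  have hn7 : (7 : ℤ) ≤ n := by exact_mod_cast h7
  have hkn' : (k : ℤ) + 2 ≤ n := by exact_mod_cast hkn
  rcases hEcases with hE0 | hE1 | hE2
  · -- E = 0
    have hall : ∀ i, r i = 1 := by
      intro i
      by_contra hi
      have h1 : 2 ≤ r i := by have := hrpos i; omega
      have h2 : r i ≤ n - 2 := by have := hother i; omega
      have h3 := hbig i h1 h2
      have h4 : ∑ v, (r i - dg (G i) v) ≤ ∑ j, ∑ v, (r j - dg (G j) v) :=
        single_le_sum (f := fun j => ∑ v, (r j - dg (G j) v)) (fun j _ => hepsnn j) (mem_univ i)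
      rw [hdouble, hE0] at h4
      linarith
    have : ∑ i, r i = k := by simp [hall, hk]
    rw [this] at hE
    omega
  · -- E = 1
    have hex : ∃ i, 2 ≤ r i := by
      by_contra hcon
      push Not at hcon
      have hall : ∀ i, r i = 1 := fun i => by have := hrpos i; have := hcon i; omega
      have : ∑ i, r i = k := by simp [hall, hk]
      rw [this] at hE
      omega
    obtain ⟨i, hi⟩ := hex
    have hi2 : r i ≤ n - 2 := by have := hother i; omega
    have hbi := hbig i hi hi2
    have huniq : ∀ j, j ≠ i → r j = 1 := by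
      intro j hji
      by_contra hj
      have h1 : 2 ≤ r j := by have := hrpos j; omega
      have h2 : r j ≤ n - 2 := by have := hother j; omega
      have h3 := hbig j h1 h2
      have h4 : ∑ l ∈ ({i, j} : Finset ι), ∑ v, (r l - dg (G l) v) ≤
          ∑ l, ∑ v, (r l - dg (G l) v) :=
        sum_le_sum_of_subset_of_nonneg (subset_univ _) fun l _ _ => hepsnn l
      rw [sum_pair (Ne.symm hji), hdouble, hE1] at h4
      linarith
    have hdj : ∀ j, j ≠ i → ∀ v, dg (G j) v = 1 := by
      intro j hj v
      have h1 := hL1 j v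
      have h2 := hdpos j v
      rw [huniq j hj] at h1
      omega
    have hdi : ∀ v, (dg (G i) v : ℤ) = n - k := by
      intro v
      have := hdsum v
      rw [← add_sum_erase univ _ (mem_univ i)] at this
      have h2 : ∑ j ∈ univ.erase i, (dg (G j) v : ℤ) = k - 1 := by
        rw [sum_congr rfl (g := fun _ => (1 : ℤ))]
        · rw [sum_const, card_erase_of_mem (mem_univ _), card_univ, hk, nsmul_eq_mul, mul_one,
            hkk]
        · intro j hj
          rw [mem_erase] at hj
          exact_mod_cast hdj j hj.1 v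
      rw [h2] at this
      linarith
    have hri : r i = n - k + 1 := by
      have h1 : ∑ j, r j = n := by omega
      rw [← add_sum_erase univ r (mem_univ i)] at h1
      have h2 : ∑ j ∈ univ.erase i, r j = k - 1 := by
        rw [sum_congr rfl (g := fun _ => (1 : ℤ))]
        · rw [sum_const, card_erase_of_mem (mem_univ _), card_univ, hk, nsmul_eq_mul, mul_one,
            hkk]
        · intro j hj
          rw [mem_erase] at hj
          exact huniq j hj.1
      rw [h2] at h1
      linarith
    -- parity
    have heven : 8 ≤ n := by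
      have hcard : 1 < Fintype.card ι := by omega
      have : Nontrivial ι := Fintype.one_lt_card_iff_nontrivial.1 hcard
      obtain ⟨j, hj⟩ := exists_ne i
      have h1 := (G j).sum_degrees_eq_twice_card_edges
      have h2 : ∀ v, (G j).degree v = 1 := by
        intro v
        rw [← hdj j hj v, ← SimpleGraph.card_neighborFinset_eq_degree]
        unfold dg
        congr 1
        ext w
        simp
      simp only [h2, sum_const, card_univ, hn, smul_eq_mul, mul_one] at h1
      omega
    have hreg := regular (hG.minDeg i) hn heven (d := n - k) (by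
      intro v
      have := hdi v
      omega) (by omega) (by omega)
    have : r i = n + 1 - gammaT (G i) := rfl
    omega
  · -- E = 2
    have hS : ∑ i, gammaT (G i) = (k - 1) * (n + 1) := by
      have h1 : ∑ i, (gammaT (G i) : ℤ) = (k - 1) * (n + 1) := by
        have : ∑ i, r i = n + 1 := by omega
        rw [hrsum] at this
        linarith
      rw [← hkk] at h1
      exact_mod_cast h1
    have hall := heq hS
    have hcard : 0 < Fintype.card ι := by omega
    obtain ⟨i0⟩ := Fintype.card_pos_iff.1 hcard
    have hrall : ∀ i, r i = r i0 := fun i => by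
      simp only [hr]
      rw [hall i i0]
    have hkr : (k : ℤ) * r i0 = n + 1 := by
      have : ∑ i, r i = n + 1 := by omega
      rw [← this]
      simp [hrall, hk]
    have hr2 : 2 ≤ r i0 := by
      by_contra hcon
      have : r i0 = 1 := by have := hrpos i0; omega
      rw [this] at hkr
      omega
    have hrn : r i0 ≤ n - 2 := by nlinarith
    have hall2 : ∀ i, ∑ v, (r i - dg (G i) v) ≥ n - 3 := by
      intro i
      apply hbig i <;> rw [hrall i] <;> assumption
    have hle : (k : ℤ) * (n - 3) ≤ 2 * n := by
      have : ∑ i : ι, ((n : ℤ) - 3) ≤ ∑ i, ∑ v, (r i - dg (G i) v) :=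
        sum_le_sum fun i _ => hall2 i
      rw [hdouble, hE2] at this
      simp only [sum_const, card_univ, hk, nsmul_eq_mul] at this
      linarith
    have hn9 : n ≤ 9 := by
      have : (n : ℤ) ≤ 9 := by nlinarith
      exact_mod_cast this
    have hnz : n = 7 ∨ n = 8 ∨ n = 9 := by omega
    rcases hnz with rfl | rfl | rfl
    · -- n = 7
      have hk5 : k ≤ 5 := by omega
      have hrr : r i0 ≤ 5 := by exact_mod_cast hrn
      interval_cases k <;> norm_num at hkr hle <;> try omega
    · -- n = 8
      have hk5 : k ≤ 6 := by omega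
      have hk3' : k = 3 := by
        by_contra hne
        interval_cases k <;> first | exact hne rfl | (norm_num at hkr hle; try omega)
      subst hk3'
      have hr3 : r i0 = 3 := by norm_num at hkr; omega
      have hall3 : ∀ i, ∑ v, (r i - dg (G i) v) ≥ 8 := by
        intro i
        have h1 := heps i
        rw [hrall i, hr3] at h1 ⊢
        rcases h1 with h | h
        · exact_mod_cast h
        · have h' : ((8 : ℕ) - 3 : ℤ) * 3 - ((8 : ℕ) - 1) = 8 := by norm_num
          rw [h'] at h
          exact h
      have : ∑ i : ι, (8 : ℤ) ≤ ∑ i, ∑ v, (r i - dg (G i) v) :=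
        sum_le_sum fun i _ => hall3 i
      rw [hdouble, hE2] at this
      simp only [sum_const, card_univ, hk, nsmul_eq_mul] at this
      norm_num at this
    · -- n = 9
      have hk5 : k ≤ 7 := by omega
      interval_cases k <;> norm_num at hkr hle <;> try omega

/-- AM-GM with equality case, in the form needed. -/
lemma amgm {x : ι → ℝ} (hx : ∀ i, 0 < x i) {B : ℝ} (hB : 0 < B)
    (h : B ^ Fintype.card ι ≤ ∏ i, x i) :
    Fintype.card ι * B ≤ ∑ i, x i ∧
      (∑ i, x i = Fintype.card ι * B → ∀ i, x i = B) := by
  have h1 : (1 : ℝ) ≤ ∏ i, (x i / B) := by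
    rw [prod_div_distrib, prod_const, card_univ, le_div_iff₀ (by positivity), one_mul]
    exact h
  have h2 : ∏ i, (x i / B) ≤ Real.exp (∑ i, (x i / B - 1)) := by
    rw [Real.exp_sum]
    apply prod_le_prod
    · intro i _
      exact (div_pos (hx i) hB).le
    · intro i _
      have := Real.add_one_le_exp (x i / B - 1)
      linarith
  have h3 : ∑ i, (x i / B - 1) = (∑ i, x i) / B - Fintype.card ι := by
    rw [sum_sub_distrib, ← sum_div]
    simp
  constructor
  · have h4 : 0 ≤ ∑ i, (x i / B - 1) := by
      rw [← Real.one_le_exp_iff]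
      exact h1.trans h2
    rw [h3] at h4
    have : (Fintype.card ι : ℝ) ≤ (∑ i, x i) / B := by linarith
    rwa [le_div_iff₀ hB] at this
  · intro hs i
    by_contra hi
    have h5 : ∑ i, (x i / B - 1) = 0 := by
      rw [h3, hs]
      field_simp
      ring
    have h6 : ∏ i, (x i / B) < Real.exp (∑ i, (x i / B - 1)) := by
      rw [Real.exp_sum]
      apply prod_lt_prod
      · intro i _
        exact div_pos (hx i) hB
      · intro i _
        have := Real.add_one_le_exp (x i / B - 1)
        linarith
      · refine ⟨i, mem_univ _, ?_⟩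
        have h7 : x i / B - 1 ≠ 0 := by
          intro h8
          apply hi
          have : x i / B = 1 := by linarith
          rwa [div_eq_one_iff_eq hB.ne'] at this
        have := Real.add_one_lt_exp h7
        linarith
    rw [h5, Real.exp_zero] at h6
    linarith

lemma gammaT_pos [Nonempty V] {G : SimpleGraph V} (h : ∀ v, ∃ w, G.Adj v w) :
    0 < gammaT G := by
  obtain ⟨S, hS, hc⟩ := exists_tds h
  rw [← hc, card_pos]
  obtain ⟨w, hw, -⟩ := hS (Classical.arbitrary V)
  exact ⟨w, hw⟩

end main

/-- The AM-GM bound is never attained. -/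
theorem never_attained {n k : ℕ} (h7 : 7 ≤ n) (h3 : 3 ≤ k) (hkn : k ≤ n - 2) :
    (P n k : ℝ) < ((1 - 1 / k) * (n + 1)) ^ k := by
  have hkpos : (0 : ℝ) < k := by positivity
  have hk1 : (1 : ℝ) < k := by exact_mod_cast (by omega : 1 < k)
  have hBpos : (0 : ℝ) < (1 - 1 / k) * (n + 1) := by
    apply mul_pos _ (by positivity)
    rw [sub_pos, div_lt_one hkpos]
    exact hk1
  rcases P_attained n k with h0 | ⟨G, hG, hP⟩
  · rw [h0]
    simp only [Nat.cast_zero]
    positivity
  · by_contra hcon
    push Not at hcon
    rw [hP] at hcon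
    push_cast at hcon
    have : Nonempty (Fin n) := ⟨⟨0, by omega⟩⟩
    have hkB : (k : ℝ) * ((1 - 1 / k) * (n + 1)) = ((k - 1 : ℕ) : ℝ) * (n + 1) := by
      rw [Nat.cast_sub (by omega)]
      field_simp
      simp
    have := amgm (ι := Fin k) (x := fun i => (gammaT (G i) : ℝ))
      (fun i => by exact_mod_cast gammaT_pos (hG.minDeg i)) hBpos (by simpa using hcon)
    simp only [Fintype.card_fin] at this
    rw [hkB] at this
    obtain ⟨h1, h2⟩ := this
    refine core hG (by simp) (by simp) h7 h3 (by omega) (n := n) (k := k) ?_ ?_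
    · exact_mod_cast h1
    · intro h i j
      have h4 := h2 (by exact_mod_cast h)
      have h5 := h4 i
      have h6 := h4 j
      rw [← h6] at h5
      exact_mod_cast h5

end Pool.Agent.Work.MP_1ce445_co_56
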