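import Pool.Agent.Work.MP_1ce445_co_56.KeyIneq

/-!
The key inequality for families of sets in which almost all pairs intersect.
-/

namespace Pool.Agent.Work.MP_1ce445_co_56

open Finset

variable {ι V : Type*} [Fintype ι] [DecidableEq ι] [Fintype V] [DecidableEq V]

theorem robust_ineq (T : V → Finset ι) {s : ℝ} (hs : 0 < s) (hV : 0 < Fintype.card V)
    (hT : (∑ v, ((univ.filter (fun w => T v ∩ T w = ∅)).card : ℝ)) ≤
      s ^ 2 * (Fintype.card V : ℝ) ^ 2) :
    ∏ j : ι, (1 - ((univ.filter (fun v => j ∈ T v)).card : ℝ) / Fintype.card V) ≤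
      1/27 + 60 * s := by
  set n : ℝ := (Fintype.card V : ℝ) with hn
  have hnpos : (0 : ℝ) < n := by simp only [hn]; exact_mod_cast hV
  set c : ι → ℝ := fun j => ((univ.filter (fun v => j ∈ T v)).card : ℝ) with hc
  set p : ι → ℝ := fun j => c j / n with hp
  have hp0 : ∀ j, 0 ≤ p j := fun j => by positivity
  have hp1 : ∀ j, p j ≤ 1 := fun j => by
    simp only [hp, hc]
    rw [div_le_one hnpos]
    have : (univ.filter (fun v => j ∈ T v)).card ≤ Fintype.card V := card_le_univ _
    simp only [hn]
    exact_mod_cast this
  change ∏ j : ι, (1 - p j) ≤ 1/27 + 60 * s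
  have hprod1 : ∀ R : Finset ι, ∏ j ∈ R, (1 - p j) ≤ 1 := fun R =>
    prod_le_one (fun j _ => by have := hp1 j; linarith) (fun j _ => by have := hp0 j; linarith)
  have hprod0 : ∀ R : Finset ι, 0 ≤ ∏ j ∈ R, (1 - p j) := fun R =>
    prod_nonneg (fun j _ => by have := hp1 j; linarith)
  -- large `s` is trivial
  rcases le_or_gt (1/60) s with hs60 | hs60
  · have := hprod1 univ
    linarith
  set b : V → ℝ := fun v => ((univ.filter (fun w => T v ∩ T w = ∅)).card : ℝ) with hb
  -- size at most one
  by_cases h1 : ∃ v, b v ≤ s * n ∧ (T v).card ≤ 1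
  · obtain ⟨v, hv, hTv⟩ := h1
    rcases Nat.lt_or_ge (T v).card 1 with h0 | h0
    · have h2 : T v = ∅ := by rw [← card_eq_zero]; omega
      have h3 : b v = n := by
        simp only [hb, h2, empty_inter, hn]
        simp
      rw [h3] at hv
      nlinarith
    · obtain ⟨a, ha⟩ := card_eq_one.1 (le_antisymm hTv h0)
      have h3 : (1 - p a) * n = b v := by
        have h4 : (univ.filter (fun w => a ∈ T w)).card +
            (univ.filter (fun w => a ∉ T w)).card = Fintype.card V := by
          rw [← card_univ]; exact card_filter_add_card_filter_not _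
        have h5 : ((univ.filter (fun w => a ∈ T w)).card : ℝ) +
            (univ.filter (fun w => a ∉ T w)).card = n := by
          simp only [hn]; exact_mod_cast h4
        have h6 : (univ.filter (fun w => T v ∩ T w = ∅)) = univ.filter (fun w => a ∉ T w) := by
          ext w
          simp only [mem_filter, mem_univ, true_and, ha]
          rw [← disjoint_iff_inter_eq_empty, disjoint_singleton_left]
        simp only [hb, h6, hp, hc]
        field_simp
        linarith
      have h7 : 1 - p a ≤ s := by
        have : (1 - p a) * n ≤ s * n := by rw [h3]; exact hv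
        exact le_of_mul_le_mul_right this hnpos
      have h8 : ∏ j, (1 - p j) ≤ s := by
        rw [← mul_prod_erase univ _ (mem_univ a)]
        have h9 := hprod1 (univ.erase a)
        have h10 := hprod0 (univ.erase a)
        have h11 : 0 ≤ 1 - p a := by have := hp1 a; linarith
        nlinarith
      linarith
  -- size two
  by_cases h2 : ∃ v, b v ≤ s * n ∧ (T v).card = 2
  · obtain ⟨v, hv, hTv⟩ := h2
    obtain ⟨x, y, hxy, hvxy⟩ := card_eq_two.1 hTv
    set A := (univ : Finset V).filter (fun w => y ∉ T w) with hA
    set B := (univ : Finset V).filter (fun w => x ∉ T w ∧ y ∈ T w) with hB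
    have hboth : (univ.filter (fun w => T v ∩ T w = ∅)) =
        univ.filter (fun w => x ∉ T w ∧ y ∉ T w) := by
      ext w
      simp only [mem_filter, mem_univ, true_and, hvxy]
      rw [← disjoint_iff_inter_eq_empty, disjoint_insert_left, disjoint_singleton_left]
    have hAcard : (A.card : ℝ) = n * (1 - p y) := by
      have h3 : (univ.filter (fun w => y ∈ T w)).card + A.card = Fintype.card V := by
        rw [← card_univ]; exact card_filter_add_card_filter_not _
      have h4 : ((univ.filter (fun w => y ∈ T w)).card : ℝ) + A.card = n := by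
        simp only [hn]; exact_mod_cast h3
      simp only [hp, hc]
      field_simp
      linarith
    have hBcard : n * (1 - p x) - s * n ≤ (B.card : ℝ) := by
      have h3 : (univ.filter (fun w => x ∈ T w)).card +
          (univ.filter (fun w => x ∉ T w)).card = Fintype.card V := by
        rw [← card_univ]; exact card_filter_add_card_filter_not _
      have h4 : ((univ.filter (fun w => x ∈ T w)).card : ℝ) +
          (univ.filter (fun w => x ∉ T w)).card = n := by
        simp only [hn]; exact_mod_cast h3
      have h5 : (univ.filter (fun w => x ∉ T w)).card ≤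
          (univ.filter (fun w => T v ∩ T w = ∅)).card + B.card := by
        rw [hboth]
        refine le_trans (card_le_card ?_) (card_union_le _ _)
        intro w hw
        simp only [mem_union, mem_filter, mem_univ, true_and, hB] at hw ⊢
        tauto
      have h6 : ((univ.filter (fun w => x ∉ T w)).card : ℝ) ≤ b v + B.card := by
        simp only [hb]
        exact_mod_cast h5
      simp only [hp, hc]
      have h7 : n * (1 - ((univ.filter (fun v => x ∈ T v)).card : ℝ) / n) =
          n - (univ.filter (fun v => x ∈ T v)).card := by field_simp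
      rw [h7]
      linarith
    set R : Finset ι := (univ.erase x).erase y with hR
    -- the double count
    have hdc : (A.card : ℝ) * B.card ≤ (∑ j ∈ R, ((A.filter (fun w => j ∈ T w)).card : ℝ) *
        ((B.filter (fun w => j ∈ T w)).card : ℝ)) + s ^ 2 * n ^ 2 := by
      have h3 : ∀ w ∈ A, ∀ w' ∈ B, 1 ≤ (R.filter (fun j => j ∈ T w ∧ j ∈ T w')).card +
          (if T w ∩ T w' = ∅ then 1 else 0) := by
        intro w hw w' hw'
        simp only [hA, hB, mem_filter, mem_univ, true_and] at hw hw'
        split_ifs with h4
        · omega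
        · obtain ⟨j, hj⟩ := nonempty_iff_ne_empty.2 h4
          rw [mem_inter] at hj
          have : 0 < (R.filter (fun j => j ∈ T w ∧ j ∈ T w')).card := by
            apply card_pos.2
            refine ⟨j, ?_⟩
            simp only [hR, mem_filter, mem_erase, mem_univ, and_true]
            refine ⟨⟨?_, ?_⟩, hj⟩
            · rintro rfl; exact hw hj.1
            · rintro rfl; exact hw'.1 hj.2
          omega
      have h4 : ∑ w ∈ A, ∑ w' ∈ B, 1 ≤
          ∑ w ∈ A, ∑ w' ∈ B, ((R.filter (fun j => j ∈ T w ∧ j ∈ T w')).card +
          (if T w ∩ T w' = ∅ then 1 else 0)) :=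
        sum_le_sum fun w hw => sum_le_sum fun w' hw' => h3 w hw w' hw'
      simp only [sum_add_distrib] at h4
      have h5 : ∑ w ∈ A, ∑ w' ∈ B, (R.filter (fun j => j ∈ T w ∧ j ∈ T w')).card =
          ∑ j ∈ R, (A.filter (fun w => j ∈ T w)).card * (B.filter (fun w => j ∈ T w)).card := by
        simp_rw [card_filter]
        simp_rw [sum_mul_sum]
        rw [sum_comm' (s := R) (t := fun _ => A) (s' := fun _ => R) (t' := A) (by simp)]
        apply sum_congr rfl
        intro w _
        rw [sum_comm]
        apply sum_congr rfl
        intro j _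
        apply sum_congr rfl
        intro w' _
        by_cases h6 : j ∈ T w <;> by_cases h7 : j ∈ T w' <;> simp [h6, h7]
      have h6 : ∑ w ∈ A, ∑ w' ∈ B, (if T w ∩ T w' = ∅ then 1 else 0) ≤
          ∑ w, (univ.filter (fun w' => T w ∩ T w' = ∅)).card := by
        refine le_trans ?_ (sum_le_sum_of_subset (subset_univ A))
        apply sum_le_sum
        intro w _
        rw [← card_filter]
        exact card_le_card (filter_subset_filter _ (subset_univ _))
      have h7 : ((∑ w, (univ.filter (fun w' => T w ∩ T w' = ∅)).card : ℕ) : ℝ) ≤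
          s ^ 2 * n ^ 2 := by
        push_cast
        exact hT
      rw [h5] at h4
      simp only [sum_const, smul_eq_mul, mul_one] at h4
      have h8 : ((A.card * B.card : ℕ) : ℝ) ≤ ((∑ j ∈ R, (A.filter (fun w => j ∈ T w)).card *
          (B.filter (fun w => j ∈ T w)).card : ℕ) : ℝ) +
          ((∑ w, (univ.filter (fun w' => T w ∩ T w' = ∅)).card : ℕ) : ℝ) := by
        rw [← Nat.cast_add]
        exact_mod_cast h4.trans (Nat.add_le_add_left h6 _)
      push_cast at h8
      push_cast at h7
      linarith
    have hsq : 4 * ((A.card : ℝ) * B.card) ≤ n^2 * ∑ j ∈ R, p j ^ 2 + 4 * (s ^ 2 * n ^ 2) := by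
      have h6 : ∀ j ∈ R, 4 * (((A.filter (fun w => j ∈ T w)).card : ℝ) *
        ((B.filter (fun w => j ∈ T w)).card : ℝ)) ≤ n^2 * p j ^ 2 := by
        intro j _
        have h7 : (A.filter (fun w => j ∈ T w)).card + (B.filter (fun w => j ∈ T w)).card ≤
            (univ.filter (fun w => j ∈ T w)).card := by
          rw [← card_union_of_disjoint]
          · apply card_le_card
            intro w hw
            simp only [mem_union, mem_filter, mem_univ, true_and] at hw ⊢
            tauto
          · rw [disjoint_left]
            intro w h8 h9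
            simp only [hA, hB, mem_filter, mem_univ, true_and] at h8 h9
            exact h8.1 h9.1.2
        have h8 : ((A.filter (fun w => j ∈ T w)).card : ℝ) +
            ((B.filter (fun w => j ∈ T w)).card : ℝ) ≤ c j := by
          simp only [hc]
          exact_mod_cast h7
        have h9 : n^2 * p j ^ 2 = (c j)^2 := by
          simp only [hp]
          field_simp
        rw [h9]
        have h10 : (0 : ℝ) ≤ ((A.filter (fun w => j ∈ T w)).card : ℝ) := by positivity
        have h11 : (0 : ℝ) ≤ ((B.filter (fun w => j ∈ T w)).card : ℝ) := by positivity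
        nlinarith [sq_nonneg (((A.filter (fun w => j ∈ T w)).card : ℝ) -
            ((B.filter (fun w => j ∈ T w)).card : ℝ))]
      have h12 := sum_le_sum h6
      rw [← mul_sum, ← mul_sum] at h12
      linarith
    have hxy2 : 4 * ((1 - p x) * (1 - p y)) ≤ ∑ j ∈ R, p j ^ 2 + 4 * s ^ 2 + 4 * s := by
      have h3 : 4 * (n * (1 - p y) * (n * (1 - p x) - s * n)) ≤
          n^2 * ∑ j ∈ R, p j ^ 2 + 4 * (s ^ 2 * n ^ 2) := by
        refine le_trans ?_ hsq
        rw [← hAcard]
        have : (0 : ℝ) ≤ A.card := by positivity
        nlinarith [mul_le_mul_of_nonneg_left hBcard this]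
      have h4 : n ^ 2 * (4 * ((1 - p x) * (1 - p y))) ≤
          n ^ 2 * (∑ j ∈ R, p j ^ 2 + 4 * s ^ 2 + 4 * s) := by
        have h5 : 0 ≤ p y := hp0 y
        have h6 : 0 ≤ n ^ 2 * s := by positivity
        nlinarith [mul_nonneg h6 h5]
      exact le_of_mul_le_mul_left h4 (by positivity)
    have hprod : ∏ j : ι, (1 - p j) = (1 - p x) * ((1 - p y) * ∏ j ∈ R, (1 - p j)) := by
      rw [← mul_prod_erase univ _ (mem_univ x)]
      congr 1
      rw [← mul_prod_erase (univ.erase x) _ (by simp [Ne.symm hxy] : y ∈ univ.erase x)]
    have hfour := four_over R p (fun j _ => hp0 j) (fun j _ => hp1 j)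
    have hpr := hprod0 R
    have hpr1 := hprod1 R
    rw [hprod]
    have h13 := mul_le_mul_of_nonneg_right hxy2 hpr
    have h14 : (4 * s ^ 2 + 4 * s) * ∏ j ∈ R, (1 - p j) ≤ (4 * s ^ 2 + 4 * s) * 1 :=
      mul_le_mul_of_nonneg_left hpr1 (by positivity)
    nlinarith
  -- all good sizes are at least three
  · have hgood : ∀ v, b v ≤ s * n → 3 ≤ (T v).card := by
      intro v hv
      by_contra hcon
      push Not at h1 h2
      have h3 := h1 v hv
      have h4 := h2 v hv
      omega
    -- the number of bad vertices
    have hbad : ((univ.filter (fun v => ¬ b v ≤ s * n)).card : ℝ) ≤ s * n := by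
      have h3 : ∑ v ∈ univ.filter (fun v => ¬ b v ≤ s * n), s * n ≤ ∑ v, b v := by
        have h31 : ∑ v ∈ univ.filter (fun v => ¬ b v ≤ s * n), s * n ≤
            ∑ v ∈ univ.filter (fun v => ¬ b v ≤ s * n), b v := by
          apply sum_le_sum
          intro v hv
          rw [mem_filter] at hv
          exact (not_le.1 hv.2).le
        refine h31.trans (sum_le_sum_of_subset_of_nonneg (filter_subset _ _) ?_)
        intro v _ _
        simp only [hb]
        positivity
      rw [sum_const, nsmul_eq_mul] at h3
      have h4 : ((univ.filter (fun v => ¬ b v ≤ s * n)).card : ℝ) * (s * n) ≤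
          (s * n) * (s * n) := by
        refine h3.trans (hT.trans (le_of_eq ?_))
        ring
      exact le_of_mul_le_mul_right h4 (by positivity)
    have hsum : 3 - 3 * s ≤ ∑ j, p j := by
      have h4 : ∑ v ∈ univ.filter (fun v => b v ≤ s * n), 3 ≤ ∑ v, (T v).card := by
        refine le_trans (sum_le_sum ?_) (sum_le_sum_of_subset (filter_subset _ _))
        intro v hv
        rw [mem_filter] at hv
        exact hgood v hv.2
      have h5 : ∑ v, (T v).card = ∑ j, (univ.filter (fun v => j ∈ T v)).card := by
        simp_rw [card_filter]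
        rw [sum_comm]
        apply sum_congr rfl
        intro v _
        simp
      rw [h5] at h4
      simp only [sum_const, smul_eq_mul] at h4
      have h6 : ((univ.filter (fun v => b v ≤ s * n)).card : ℝ) * 3 ≤ ∑ j, c j := by
        simp only [hc]
        exact_mod_cast h4
      have h7 : ((univ.filter (fun v => b v ≤ s * n)).card : ℝ) +
          (univ.filter (fun v => ¬ b v ≤ s * n)).card = n := by
        simp only [hn]
        rw [← card_univ (α := V)]
        exact_mod_cast card_filter_add_card_filter_not (s := (univ : Finset V))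
          (fun v => b v ≤ s * n)
      simp only [hp]
      rw [← sum_div, le_div_iff₀ hnpos]
      linarith
    have hsq : 1 - s ^ 2 ≤ ∑ j, p j ^ 2 := by
      have h3 : ∀ v w, 1 ≤ (T v ∩ T w).card + (if T v ∩ T w = ∅ then 1 else 0) := by
        intro v w
        split_ifs with h4
        · omega
        · have := card_pos.2 (nonempty_iff_ne_empty.2 h4)
          omega
      have h4 : ∑ v : V, ∑ w : V, 1 ≤ ∑ v, ∑ w, ((T v ∩ T w).card +
          (if T v ∩ T w = ∅ then 1 else 0)) :=
        sum_le_sum fun v _ => sum_le_sum fun w _ => h3 v w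
      simp only [sum_add_distrib] at h4
      have h5 : ∑ v, ∑ w, (T v ∩ T w).card =
          ∑ j, (univ.filter (fun v => j ∈ T v)).card * (univ.filter (fun v => j ∈ T v)).card := by
        have h50 : ∀ v w, (T v ∩ T w).card =
            ∑ j, (if j ∈ T v then 1 else 0) * (if j ∈ T w then 1 else 0) := by
          intro v w
          have h51 : (T v ∩ T w) = univ.filter (fun j => j ∈ T v ∧ j ∈ T w) := by
            ext; simp
          rw [h51, card_filter]
          apply sum_congr rfl
          intro j _
          by_cases h6 : j ∈ T v <;> by_cases h7 : j ∈ T w <;> simp [h6, h7]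
        simp_rw [h50, card_filter]
        simp_rw [sum_mul_sum]
        rw [sum_congr rfl (fun v _ => sum_comm)]
        exact sum_comm
      have h6 : ∑ v, ∑ w, (if T v ∩ T w = ∅ then 1 else 0) =
          ∑ v, (univ.filter (fun w => T v ∩ T w = ∅)).card := by
        apply sum_congr rfl
        intro v _
        rw [← card_filter]
      rw [h5, h6] at h4
      simp only [sum_const, smul_eq_mul, mul_one, card_univ] at h4
      have h7 : n * n ≤ ∑ j, c j ^ 2 + ∑ v, b v := by
        simp only [hc, hb, hn, sq]
        exact_mod_cast h4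
      have h8 : n * n ≤ ∑ j, c j ^ 2 + s ^ 2 * n ^ 2 := h7.trans (by
        have := hT
        simp only [hb]
        linarith)
      simp only [hp, div_pow]
      rw [← sum_div, le_div_iff₀ (by positivity)]
      linarith
    have hfin : ∏ j : ι, (1 - p j) ≤ Real.exp (-(∑ j, p j + (∑ j, p j ^ 2) / 2)) := by
      have h7 : -(∑ j, p j + (∑ j, p j ^ 2) / 2) = ∑ j, (-(p j + p j ^ 2 / 2)) := by
        rw [sum_neg_distrib, sum_add_distrib, sum_div]
      rw [h7, Real.exp_sum]
      apply prod_le_prod
      · intro j _; have := hp1 j; linarith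
      · intro j _; exact second_order (hp0 j) (hp1 j)
    have h8 : Real.exp (-(∑ j, p j + (∑ j, p j ^ 2) / 2)) ≤ Real.exp (-(3.44)) := by
      apply Real.exp_le_exp.2
      nlinarith
    have h9 : Real.exp (-(3.44)) ≤ 1/27 := by
      rw [Real.exp_neg, inv_le_comm₀ (Real.exp_pos _) (by norm_num)]
      have h9 : Real.exp (3.44) = Real.exp 1 ^ 3 * Real.exp (0.44) := by
        rw [← Real.exp_nat_mul, ← Real.exp_add]; congr 1; norm_num
      have h10 : (27:ℝ)/10 ≤ Real.exp 1 := by have := Real.exp_one_gt_d9; linarith
      have h11 : (1.44:ℝ) ≤ Real.exp (0.44) := by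
        have := Real.add_one_le_exp (0.44 : ℝ); linarith
      rw [h9]
      calc ((1/27 : ℝ))⁻¹ ≤ (27/10)^3 * (1.44) := by norm_num
        _ ≤ _ := by gcongr
    linarith

end Pool.Agent.Work.MP_1ce445_co_56
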