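import Pool.Agent.Work.MP_1ce445_co_56.Never
import Pool.Agent.Work.MP_1ce445_co_56.KeyIneq

/-!
The upper bound `P n k ≤ (1/27 + o(1)) n ^ k` for fixed `k`.
-/

namespace Pool.Agent.Work.MP_1ce445_co_56

open Finset

lemma prod_add_le {ι : Type*} [DecidableEq ι] (s : Finset ι) (a : ι → ℝ) {t : ℝ} (ht : 0 ≤ t)
    (h0 : ∀ j, 0 ≤ a j) (h1 : ∀ j, a j ≤ 1) :
    ∏ j ∈ s, (a j + t) ≤ ∏ j ∈ s, a j + ((1 + t) ^ s.card - 1) := by
  induction s using Finset.induction_on with
  | empty => simp
  | insert i s hi ih =>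
    rw [prod_insert hi, prod_insert hi, card_insert_of_notMem hi, pow_succ]
    have h2 : ∏ j ∈ s, (a j + t) ≤ (1 + t) ^ s.card := by
      rw [← prod_const]
      apply prod_le_prod
      · intro j _; have := h0 j; linarith
      · intro j _; have := h1 j; linarith
    have h3 : (1 : ℝ) ≤ (1 + t) ^ s.card := one_le_pow₀ (by linarith)
    have h4 : 0 ≤ ∏ j ∈ s, a j := prod_nonneg fun j _ => h0 j
    have h5 := mul_le_mul_of_nonneg_left ih (h0 i)
    have h6 := mul_le_mul_of_nonneg_left h2 ht
    have h7 : a i * ((1 + t) ^ s.card - 1) ≤ 1 * ((1 + t) ^ s.card - 1) :=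
      mul_le_mul_of_nonneg_right (h1 i) (by linarith)
    nlinarith

section single

variable {V : Type*} [Fintype V] [DecidableEq V]

open Classical in
lemma hit (G : SimpleGraph V) {d : ℝ} (hd0 : 0 ≤ d) (T : ℕ) :
    ∃ Z : Finset V, Z.card ≤ T ∧
      ((univ.filter (fun v => d * Fintype.card V ≤ dg G v ∧ ∀ z ∈ Z, ¬ G.Adj v z)).card : ℝ) ≤
        (1 - d) ^ T * Fintype.card V ∨ 1 < d := by
  by_cases hd1 : 1 < d
  · exact ⟨∅, Or.inr hd1⟩
  push Not at hd1
  rcases isEmpty_or_nonempty V with hV | hV
  · exact ⟨∅, Or.inl ⟨by simp, by simp⟩⟩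
  have hn : (0 : ℝ) < Fintype.card V := by exact_mod_cast Fintype.card_pos
  suffices h : ∃ Z : Finset V, Z.card ≤ T ∧
      ((univ.filter (fun v => d * Fintype.card V ≤ dg G v ∧ ∀ z ∈ Z, ¬ G.Adj v z)).card : ℝ) ≤
        (1 - d) ^ T * Fintype.card V by
    obtain ⟨Z, hZ⟩ := h
    exact ⟨Z, Or.inl hZ⟩
  induction T with
  | zero =>
    refine ⟨∅, by simp, ?_⟩
    simp only [pow_zero, one_mul]
    exact_mod_cast card_le_univ _
  | succ T ih =>
    obtain ⟨Z, hZ, hU⟩ := ih
    set U := univ.filter (fun v => d * Fintype.card V ≤ dg G v ∧ ∀ z ∈ Z, ¬ G.Adj v z) with hUdef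
    have hz : ∃ z, d * U.card ≤ (nb G U z).card := by
      by_contra hcon
      push Not at hcon
      have h1 : ∑ z : V, ((nb G U z).card : ℝ) < ∑ _z : V, d * U.card :=
        sum_lt_sum_of_nonempty univ_nonempty fun z _ => hcon z
      have h2 : ∑ z : V, ((nb G U z).card : ℝ) = ∑ y ∈ U, (dg G y : ℝ) := by
        exact_mod_cast (sum_dg G U).symm
      have h3 : ∑ y ∈ U, (d * Fintype.card V : ℝ) ≤ ∑ y ∈ U, (dg G y : ℝ) := by
        apply sum_le_sum
        intro y hy
        simp only [hUdef, mem_filter] at hy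
        exact hy.2.1
      simp only [sum_const, card_univ, nsmul_eq_mul] at h1 h3
      nlinarith
    obtain ⟨z, hz⟩ := hz
    refine ⟨insert z Z, (card_insert_le _ _).trans (by omega), ?_⟩
    have h4 : (univ.filter (fun v => d * Fintype.card V ≤ dg G v ∧
        ∀ z' ∈ insert z Z, ¬ G.Adj v z')) = U.filter (fun v => ¬ G.Adj v z) := by
      ext v
      simp only [mem_filter, mem_univ, true_and, mem_insert, forall_eq_or_imp, hUdef]
      tauto
    rw [h4]
    have h5 : (nb G U z).card + (U.filter (fun v => ¬ G.Adj v z)).card = U.card :=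
      card_filter_add_card_filter_not _
    have h6 : ((nb G U z).card : ℝ) + (U.filter (fun v => ¬ G.Adj v z)).card = U.card := by
      exact_mod_cast h5
    have h7 : (1 - d) * U.card ≤ (1 - d) * ((1 - d) ^ T * Fintype.card V) :=
      mul_le_mul_of_nonneg_left hU (by linarith)
    rw [pow_succ]
    linarith

open Classical in
lemma gammaT_le_low {G : SimpleGraph V} (h : ∀ v, ∃ w, G.Adj v w) {d : ℝ} (hd0 : 0 ≤ d)
    (hd1 : d ≤ 1) (T : ℕ) :
    (gammaT G : ℝ) ≤ (univ.filter (fun v => ¬ d * Fintype.card V ≤ dg G v)).card + T +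
      (1 - d) ^ T * Fintype.card V := by
  obtain ⟨Z, ⟨hZ, hU⟩ | h1⟩ := hit G hd0 T
  · have h2 := gammaT_le_add h Z
    have h3 : (univ.filter (fun v => ∀ z ∈ Z, ¬ G.Adj v z)).card ≤
        (univ.filter (fun v => ¬ d * Fintype.card V ≤ dg G v)).card +
        (univ.filter (fun v => d * Fintype.card V ≤ dg G v ∧ ∀ z ∈ Z, ¬ G.Adj v z)).card := by
      refine le_trans (card_le_card ?_) (card_union_le _ _)
      intro v hv
      simp only [mem_filter, mem_univ, true_and, mem_union] at hv ⊢
      tauto
    have h4 : (gammaT G : ℝ) ≤ Z.card +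
        ((univ.filter (fun v => ¬ d * Fintype.card V ≤ dg G v)).card +
        (univ.filter (fun v => d * Fintype.card V ≤ dg G v ∧ ∀ z ∈ Z, ¬ G.Adj v z)).card) := by
      exact_mod_cast h2.trans (Nat.add_le_add_left h3 _)
    have h5 : (Z.card : ℝ) ≤ T := by exact_mod_cast hZ
    linarith
  · linarith

end single

section types

variable {n k : ℕ}

open Classical in
/-- The set of colours in which `v` has high degree. -/
noncomputable def tp (G : Fin k → SimpleGraph (Fin n)) (d : ℝ) (v : Fin n) : Finset (Fin k) :=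
  univ.filter (fun j => d * n ≤ dg (G j) v)

/-- the vertices of a given type -/
noncomputable def cls (G : Fin k → SimpleGraph (Fin n)) (d : ℝ) (A : Finset (Fin k)) :
    Finset (Fin n) := univ.filter (fun v => tp G d v = A)

lemma sum_dg_eq {G : Fin k → SimpleGraph (Fin n)} (hG : IsFactorization G) (v : Fin n) :
    ∑ i, (dg (G i) v : ℝ) = (n - 1 : ℕ) := by
  have := sum_degree hG v
  rw [Fintype.card_fin] at this
  rw [← this]
  push_cast
  apply sum_congr rfl
  intro i _
  unfold dg
  congr

lemma tp_nonempty {G : Fin k → SimpleGraph (Fin n)} (hG : IsFactorization G) {d : ℝ}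
    (hd : k * d ≤ 1/2) (hn : 2 ≤ n) (v : Fin n) : (tp G d v).Nonempty := by
  by_contra hcon
  rw [not_nonempty_iff_eq_empty] at hcon
  have h1 : ∀ j, (dg (G j) v : ℝ) < d * n := by
    intro j
    by_contra h
    push Not at h
    have : j ∈ tp G d v := by simp [tp, h]
    rw [hcon] at this
    simp at this
  have h2 := sum_dg_eq hG v
  have h3 : ∑ i : Fin k, (dg (G i) v : ℝ) ≤ ∑ _i : Fin k, d * n :=
    sum_le_sum fun j _ => (h1 j).le
  rw [h2] at h3
  simp only [sum_const, card_univ, Fintype.card_fin, nsmul_eq_mul] at h3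
  have hn' : (2 : ℝ) ≤ n := by exact_mod_cast hn
  rw [Nat.cast_sub (by omega)] at h3
  -- strictness
  rcases Nat.eq_zero_or_pos k with hk | hk
  · subst hk
    simp at h3
    have : (n : ℝ) ≤ 1 := by exact_mod_cast h3
    linarith
  · have h4 : ∑ i : Fin k, (dg (G i) v : ℝ) < ∑ _i : Fin k, d * n := by
      apply sum_lt_sum_of_nonempty
      · exact ⟨⟨0, hk⟩, mem_univ _⟩
      · intro j _; exact h1 j
    rw [h2] at h4
    simp only [sum_const, card_univ, Fintype.card_fin, nsmul_eq_mul] at h4
    rw [Nat.cast_sub (by omega)] at h4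
    push_cast at h4
    nlinarith

/-- Disjoint types: the product of the class sizes is small. -/
lemma cls_mul_le {G : Fin k → SimpleGraph (Fin n)} (hG : IsFactorization G) {d : ℝ}
    (hd : 0 ≤ d) {A B : Finset (Fin k)} (hAB : Disjoint A B) (hne : A ≠ B) :
    ((cls G d A).card : ℝ) * (cls G d B).card ≤ k * d * n ^ 2 := by
  classical
  have h1 : (cls G d A) ×ˢ (cls G d B) ⊆ univ.biUnion (fun j : Fin k =>
      ((cls G d A) ×ˢ (cls G d B)).filter (fun x => (G j).Adj x.1 x.2)) := by
    intro x hx
    have hx' := hx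
    rw [mem_product] at hx
    have hx1 : tp G d x.1 = A := by simpa [cls] using hx.1
    have hx2 : tp G d x.2 = B := by simpa [cls] using hx.2
    have : x.1 ≠ x.2 := by
      intro h
      apply hne
      rw [← hx1, ← hx2, h]
    obtain ⟨j, hj⟩ := hG.cover _ _ this
    rw [mem_biUnion]
    exact ⟨j, mem_univ _, mem_filter.2 ⟨hx', hj⟩⟩
  have h2 := (card_le_card h1).trans card_biUnion_le
  rw [card_product] at h2
  have hcn : ∀ C : Finset (Fin k), ((cls G d C).card : ℝ) ≤ n := by
    intro C
    have : (cls G d C).card ≤ n := by simpa using card_le_univ (cls G d C)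
    exact_mod_cast this
  have hn0 : (0 : ℝ) ≤ n := Nat.cast_nonneg n
  have h3 : ∀ j : Fin k, ((((cls G d A) ×ˢ (cls G d B)).filter
      (fun x => (G j).Adj x.1 x.2)).card : ℝ) ≤ d * n ^ 2 := by
    intro j
    have hor : j ∉ A ∨ j ∉ B := by
      by_contra hcon
      push Not at hcon
      exact disjoint_left.1 hAB hcon.1 hcon.2
    rcases hor with hj | hj
    · have h4 : (((cls G d A) ×ˢ (cls G d B)).filter (fun x => (G j).Adj x.1 x.2)).card ≤
          ∑ v ∈ cls G d A, dg (G j) v := by
        rw [card_filter, sum_product]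
        apply sum_le_sum
        intro v _
        rw [← card_filter]
        unfold dg
        apply card_le_card
        intro w hw
        rw [mem_filter] at hw
        simp [hw.2]
      have h5 : (∑ v ∈ cls G d A, dg (G j) v : ℝ) ≤ ∑ _v ∈ cls G d A, d * n := by
        apply sum_le_sum
        intro v hv
        have hv' : tp G d v = A := by simpa [cls] using hv
        by_contra h
        push Not at h
        apply hj
        rw [← hv']
        simp [tp, h.le]
      rw [sum_const, nsmul_eq_mul] at h5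
      have h6 : ((((cls G d A) ×ˢ (cls G d B)).filter
        (fun x => (G j).Adj x.1 x.2)).card : ℝ) ≤ ∑ v ∈ cls G d A, (dg (G j) v : ℝ) := by
        exact_mod_cast h4
      have h7 := mul_le_mul_of_nonneg_right (hcn A) (mul_nonneg hd hn0)
      nlinarith
    · have h4 : (((cls G d A) ×ˢ (cls G d B)).filter (fun x => (G j).Adj x.1 x.2)).card ≤
          ∑ v ∈ cls G d B, dg (G j) v := by
        rw [card_filter, sum_product_right]
        apply sum_le_sum
        intro v _
        rw [← card_filter]
        unfold dg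
        apply card_le_card
        intro w hw
        rw [mem_filter] at hw
        simp [hw.2.symm]
      have h5 : (∑ v ∈ cls G d B, dg (G j) v : ℝ) ≤ ∑ _v ∈ cls G d B, d * n := by
        apply sum_le_sum
        intro v hv
        have hv' : tp G d v = B := by simpa [cls] using hv
        by_contra h
        push Not at h
        apply hj
        rw [← hv']
        simp [tp, h.le]
      rw [sum_const, nsmul_eq_mul] at h5
      have h6 : ((((cls G d A) ×ˢ (cls G d B)).filter
        (fun x => (G j).Adj x.1 x.2)).card : ℝ) ≤ ∑ v ∈ cls G d B, (dg (G j) v : ℝ) := by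
        exact_mod_cast h4
      have h7 := mul_le_mul_of_nonneg_right (hcn B) (mul_nonneg hd hn0)
      nlinarith
  have h8 : ((cls G d A).card : ℝ) * (cls G d B).card ≤ ∑ j : Fin k,
      ((((cls G d A) ×ˢ (cls G d B)).filter (fun x => (G j).Adj x.1 x.2)).card : ℝ) := by
    exact_mod_cast h2
  refine h8.trans ((sum_le_sum fun j _ => h3 j).trans ?_)
  simp only [sum_const, card_univ, Fintype.card_fin, nsmul_eq_mul]
  linarith

/-- The upper bound for one factorization, with explicit error. -/
lemma upper_core {G : Fin k → SimpleGraph (Fin n)} (hG : IsFactorization G) {d e t : ℝ} {T : ℕ}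
    (hd : 0 ≤ d) (hd1 : d ≤ 1) (he : 0 < e) (hkd : k * d ≤ 1/2) (hkd' : k * d < e ^ 2)
    (hn : 2 ≤ n) (he1 : 2 ^ k * e < 1) (ht : 2 ^ k * e + T / n + (1 - d) ^ T ≤ t) :
    (∏ j, gammaT (G j) : ℝ) ≤ (1/27 + ((1 + t) ^ k - 1)) * n ^ k := by
  classical
  have hn' : (2 : ℝ) ≤ n := by exact_mod_cast hn
  have hnpos : (0 : ℝ) < n := by linarith
  set W : Finset (Fin n) := univ.filter (fun v => e * n < (cls G d (tp G d v)).card) with hW
  -- size of the complement
  have hWc : ((univ.filter (fun v => ¬ e * n < (cls G d (tp G d v)).card)).card : ℝ) ≤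
      2 ^ k * e * n := by
    have h1 : (univ.filter (fun v => ¬ e * n < ((cls G d (tp G d v)).card : ℝ))) ⊆
        (univ.filter (fun A : Finset (Fin k) => ¬ e * n < ((cls G d A).card : ℝ))).biUnion
          (fun A => cls G d A) := by
      intro v hv
      rw [mem_filter] at hv
      rw [mem_biUnion]
      exact ⟨tp G d v, mem_filter.2 ⟨mem_univ _, hv.2⟩, by simp [cls]⟩
    have h2 := (card_le_card h1).trans card_biUnion_le
    have h3 : (∑ A ∈ (univ.filter (fun A : Finset (Fin k) => ¬ e * n < ((cls G d A).card : ℝ))),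
        ((cls G d A).card : ℝ)) ≤
        ∑ A ∈ (univ.filter (fun A : Finset (Fin k) => ¬ e * n < ((cls G d A).card : ℝ))),
        e * n := by
      apply sum_le_sum
      intro A hA
      rw [mem_filter] at hA
      exact not_lt.1 hA.2
    rw [sum_const, nsmul_eq_mul] at h3
    have h4 : ((univ.filter (fun A : Finset (Fin k) =>
        ¬ e * n < ((cls G d A).card : ℝ))).card : ℝ) ≤ 2 ^ k := by
      have : (univ.filter (fun A : Finset (Fin k) =>
        ¬ e * n < ((cls G d A).card : ℝ))).card ≤ 2 ^ k := by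
        refine (card_le_univ _).trans ?_
        simp
      exact_mod_cast this
    have h5 : ((univ.filter (fun v => ¬ e * n < ((cls G d (tp G d v)).card : ℝ))).card : ℝ) ≤
      ∑ A ∈ (univ.filter (fun A : Finset (Fin k) => ¬ e * n < ((cls G d A).card : ℝ))),
        ((cls G d A).card : ℝ) := by exact_mod_cast h2
    have h6 := mul_le_mul_of_nonneg_right h4 (mul_nonneg he.le hnpos.le)
    linarith
  have hWsum : W.card + (univ.filter (fun v => ¬ e * n < ((cls G d (tp G d v)).card : ℝ))).card
      = n := by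
    have := card_filter_add_card_filter_not (s := (univ : Finset (Fin n)))
      (fun v => e * n < ((cls G d (tp G d v)).card : ℝ))
    rw [card_univ, Fintype.card_fin] at this
    exact this
  have hWsum' : (W.card : ℝ) + (univ.filter (fun v =>
      ¬ e * n < ((cls G d (tp G d v)).card : ℝ))).card = n := by exact_mod_cast hWsum
  have hWne : W.Nonempty := by
    rw [← card_pos]
    have : (0 : ℝ) < W.card := by nlinarith
    exact_mod_cast this
  have hWpos : (0 : ℝ) < W.card := by exact_mod_cast hWne.card_pos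
  have hWn : (W.card : ℝ) ≤ n := by
    have : W.card ≤ n := by omega
    exact_mod_cast this
  have hint : ∀ v ∈ W, ∀ w ∈ W, (tp G d v ∩ tp G d w).Nonempty := by
    intro v hv w hw
    by_contra hcon
    rw [not_nonempty_iff_eq_empty, ← disjoint_iff_inter_eq_empty] at hcon
    have hne : tp G d v ≠ tp G d w := by
      intro h
      rw [← h] at hcon
      have h1 := tp_nonempty hG hkd hn v
      rw [disjoint_self, bot_eq_empty] at hcon
      rw [hcon] at h1
      simp at h1
    have h1 := cls_mul_le hG hd hcon hne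
    have hv' : e * n < (cls G d (tp G d v)).card := (mem_filter.1 hv).2
    have hw' : e * n < (cls G d (tp G d w)).card := (mem_filter.1 hw).2
    have hen : 0 < e * n := by positivity
    have h2 : (e * n) * (e * n) < ((cls G d (tp G d v)).card : ℝ) * (cls G d (tp G d w)).card :=
      mul_lt_mul'' hv' hw' hen.le hen.le
    have h3 : k * d * n ^ 2 < e ^ 2 * n ^ 2 := by
      apply mul_lt_mul_of_pos_right hkd' (by positivity)
    nlinarith
  have hkey := key_ineq W (tp G d) hWne hint
  set p : Fin k → ℝ := fun j => ((W.filter (fun v => j ∈ tp G d v)).card : ℝ) / W.card with hp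
  have hp0 : ∀ j, 0 ≤ p j := fun j => by positivity
  have hp1 : ∀ j, p j ≤ 1 := fun j => by
    simp only [hp]
    rw [div_le_one hWpos]
    exact_mod_cast card_filter_le _ _
  have ht0 : 0 ≤ t := by
    refine le_trans ?_ ht
    have : (0 : ℝ) ≤ (1 - d) ^ T := pow_nonneg (by linarith) _
    positivity
  -- each factor
  have hfac : ∀ j, (gammaT (G j) : ℝ) ≤ ((1 - p j) + t) * n := by
    intro j
    have h1 := gammaT_le_low (hG.minDeg j) hd hd1 T
    rw [Fintype.card_fin] at h1
    have h2 : (univ.filter (fun v => ¬ d * n ≤ (dg (G j) v : ℝ))).card ≤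
        (W.filter (fun v => j ∉ tp G d v)).card +
        (univ.filter (fun v => ¬ e * n < ((cls G d (tp G d v)).card : ℝ))).card := by
      refine le_trans (card_le_card ?_) (card_union_le _ _)
      intro v hv
      simp only [mem_filter, mem_univ, true_and, mem_union, hW, tp] at hv ⊢
      tauto
    have h3 : ((univ.filter (fun v => ¬ d * n ≤ (dg (G j) v : ℝ))).card : ℝ) ≤
        (W.filter (fun v => j ∉ tp G d v)).card +
        (univ.filter (fun v => ¬ e * n < ((cls G d (tp G d v)).card : ℝ))).card := by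
      exact_mod_cast h2
    have h4 : ((W.filter (fun v => j ∈ tp G d v)).card : ℝ) +
        (W.filter (fun v => j ∉ tp G d v)).card = W.card := by
      exact_mod_cast card_filter_add_card_filter_not (s := W) (fun v => j ∈ tp G d v)
    have h5 : ((W.filter (fun v => j ∉ tp G d v)).card : ℝ) = (1 - p j) * W.card := by
      simp only [hp]
      field_simp
      linarith
    have h6 : (1 - p j) * W.card ≤ (1 - p j) * n :=
      mul_le_mul_of_nonneg_left hWn (by have := hp1 j; linarith)
    have h7 : (2 ^ k * e + T / n + (1 - d) ^ T) * n ≤ t * n :=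
      mul_le_mul_of_nonneg_right ht hnpos.le
    have h8 : (2 ^ k * e + T / n + (1 - d) ^ T) * n = 2 ^ k * e * n + T + (1 - d) ^ T * n := by
      field_simp
    rw [h8] at h7
    linarith
  calc (∏ j, gammaT (G j) : ℝ) ≤ ∏ j, (((1 - p j) + t) * n) :=
        prod_le_prod (fun j _ => Nat.cast_nonneg _) fun j _ => hfac j
    _ = (∏ j, ((1 - p j) + t)) * n ^ k := by
        rw [prod_mul_distrib]; simp
    _ ≤ (1/27 + ((1 + t) ^ k - 1)) * n ^ k := by
        apply mul_le_mul_of_nonneg_right _ (by positivity)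
        have := prod_add_le univ (fun j => 1 - p j) ht0
          (fun j => by have := hp1 j; linarith) (fun j => by have := hp0 j; linarith)
        rw [card_univ, Fintype.card_fin] at this
        linarith

end types

/-- The asymptotic upper bound. -/
theorem eventually_upper (k : ℕ) {ε : ℝ} (hε : 0 < ε) :
    ∃ N : ℕ, ∀ n, N ≤ n → (P n k : ℝ) ≤ (1/27 + ε) * n ^ k := by
  -- choose `t`
  obtain ⟨t, ht, htk⟩ : ∃ t : ℝ, 0 < t ∧ (1 + t) ^ k - 1 ≤ ε := by
    have hc : Filter.Tendsto (fun t : ℝ => (1 + t) ^ k - 1) (nhdsWithin 0 (Set.Ioi 0))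
        (nhds ((1 + 0) ^ k - 1)) := by
      apply Filter.Tendsto.mono_left _ nhdsWithin_le_nhds
      exact (Continuous.tendsto (by fun_prop) 0)
    simp only [add_zero, one_pow, sub_self] at hc
    have h1 := hc.eventually (gt_mem_nhds hε)
    have h2 := h1.and self_mem_nhdsWithin
    obtain ⟨t, ht1, ht2⟩ := h2.exists
    exact ⟨t, ht2, ht1.le⟩
  -- choose `e`
  set e : ℝ := min (t / 3) (1/2) / 2 ^ k with he
  have hm : 0 < min (t / 3) (1/2) := by positivity
  have he0 : 0 < e := by positivity
  have he1 : 2 ^ k * e = min (t/3) (1/2) := by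
    rw [he]; field_simp
  -- choose `d`
  set d : ℝ := min (e^2 / 2) (1/2) / (k + 1) with hd
  have hd0 : 0 < d := by positivity
  have hkd : k * d ≤ min (e^2 / 2) (1/2) := by
    rw [hd, mul_div_assoc', div_le_iff₀ (by positivity)]
    have : 0 < min (e^2 / 2) (1/2) := by positivity
    nlinarith
  have hkd1 : k * d ≤ 1/2 := hkd.trans (min_le_right _ _)
  have hkd2 : k * d < e ^ 2 := by
    have := hkd.trans (min_le_left _ _)
    nlinarith [sq_nonneg e, pow_pos he0 2]
  have hd1 : d ≤ 1/2 := by
    rw [hd, div_le_iff₀ (by positivity)]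
    have h1 := min_le_right (e^2 / 2) (1/2 : ℝ)
    have h2 : (0 : ℝ) ≤ k := Nat.cast_nonneg k
    nlinarith
  -- choose `T`
  obtain ⟨T, hT⟩ : ∃ T : ℕ, (1 - d) ^ T < t / 3 :=
    exists_pow_lt_of_lt_one (by positivity) (by linarith)
  -- choose `N`
  obtain ⟨N, hN⟩ := exists_nat_gt (3 * T / t)
  refine ⟨max N 2, fun n hn => ?_⟩
  have hn2 : 2 ≤ n := (le_max_right _ _).trans hn
  have hnN : N ≤ n := (le_max_left _ _).trans hn
  have hnpos : (0 : ℝ) < n := by positivity
  have hTn : (T : ℝ) / n ≤ t / 3 := by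
    have h1 : 3 * T / t < n := hN.trans_le (by exact_mod_cast hnN)
    rw [div_lt_iff₀ ht] at h1
    rw [div_le_iff₀ hnpos]
    linarith
  rcases P_attained n k with h0 | ⟨G, hG, hP⟩
  · rw [h0]
    simp only [Nat.cast_zero]
    positivity
  · rw [hP]
    push_cast
    have h1 := upper_core hG (d := d) (e := e) (t := t) (T := T) hd0.le (by linarith) he0 hkd1
      hkd2 hn2 (by
        rw [he1]
        exact (min_le_right _ _).trans_lt (by norm_num)) (by
        rw [he1]
        have := min_le_left (t/3) (1/2 : ℝ)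
        linarith)
    refine h1.trans ?_
    apply mul_le_mul_of_nonneg_right _ (by positivity)
    linarith

end Pool.Agent.Work.MP_1ce445_co_56
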