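import Pool.Agent.Work.MP_1ce445_co_56.Excess
import Pool.Agent.Work.MP_1ce445_co_56.Robust
import Pool.Agent.Work.MP_1ce445_co_56.Upper
import Pool.Agent.Work.MP_1ce445_co_56.Lower

/-!
`P n k / n ^ k` is close to `1 / 27` whenever `k / n` is small.
-/

namespace Pool.Agent.Work.MP_1ce445_co_56

open Finset

lemma excess_real {n k : ℕ} {G : Fin k → SimpleGraph (Fin n)} (hG : IsFactorization G)
    (j : Fin k) : (∑ v, (dg (G j) v : ℝ)) ≤
      n + 2 * ((n : ℝ) - gammaT (G j)) * ((n : ℝ) - gammaT (G j) + 1) := by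
  have h1 := excess (hG.minDeg j)
  have h2 : gammaT (G j) ≤ n := by simpa using gammaT_le_univ (hG.minDeg j)
  rw [Fintype.card_fin] at h1
  have h3 : ((n - gammaT (G j) : ℕ) : ℝ) = (n : ℝ) - gammaT (G j) := by
    rw [Nat.cast_sub h2]
  rw [← h3]
  exact_mod_cast h1

/-- The upper bound for one factorization, uniformly for `k` small compared with `n`. -/
lemma sub_core {n k : ℕ} {G : Fin k → SimpleGraph (Fin n)} (hG : IsFactorization G)
    {s τ t : ℝ} {T : ℕ} (hs : 0 < s) (hs1 : s ≤ 1) (hτ : τ = s ^ 2 / 18)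
    (hk : (k : ℝ) ≤ τ * n) (hn9 : 9 ≤ τ * n) (ht : (T : ℝ) / n + (1 - τ ^ 2) ^ T ≤ t)
    (htt : 4 * t / τ ≤ s / 2) :
    (∏ j, gammaT (G j) : ℝ) ≤ (1/27 + 61 * s) * n ^ k := by
  classical
  have hτ0 : 0 < τ := by rw [hτ]; positivity
  have hτ1 : τ ≤ 1 := by rw [hτ]; nlinarith
  have hnpos : (0 : ℝ) < n := by
    by_contra h
    push Not at h
    nlinarith
  have hn0 : 0 < n := by exact_mod_cast hnpos
  set d : ℝ := τ ^ 2 with hd
  have hd0 : 0 ≤ d := by positivity
  have hd1 : d ≤ 1 := by rw [hd]; nlinarith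
  have ht0 : 0 ≤ t := by
    refine le_trans ?_ ht
    have : (0 : ℝ) ≤ (1 - d) ^ T := pow_nonneg (by linarith) _
    positivity
  set l : Fin k → ℝ := fun j => (n : ℝ) - gammaT (G j) with hl
  have hγn : ∀ j, (gammaT (G j) : ℝ) ≤ n := by
    intro j
    have : gammaT (G j) ≤ n := by simpa using gammaT_le_univ (hG.minDeg j)
    exact_mod_cast this
  have hl0 : ∀ j, 0 ≤ l j := fun j => by simp only [hl]; linarith [hγn j]
  -- large total loss
  rcases le_or_gt (4 * (n : ℝ)) (∑ j, l j) with hbig | hsmall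
  · have h1 : (∏ j, gammaT (G j) : ℝ) ≤ Real.exp (-4) * n ^ k := by
      calc (∏ j, gammaT (G j) : ℝ) ≤ ∏ j, (Real.exp (-(l j / n)) * n) := by
            apply prod_le_prod
            · intro j _; exact Nat.cast_nonneg _
            · intro j _
              have h2 := Real.add_one_le_exp (-(l j / n))
              have h3 : (-(l j / n) + 1) * n = gammaT (G j) := by
                simp only [hl]; field_simp; ring
              rw [← h3]
              exact mul_le_mul_of_nonneg_right h2 hnpos.le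
        _ = Real.exp (-((∑ j, l j) / n)) * n ^ k := by
            rw [prod_mul_distrib, ← Real.exp_sum, sum_neg_distrib, ← sum_div]
            simp
        _ ≤ Real.exp (-4) * n ^ k := by
            apply mul_le_mul_of_nonneg_right _ (by positivity)
            apply Real.exp_le_exp.2
            have : 4 ≤ (∑ j, l j) / n := by rw [le_div_iff₀ hnpos]; exact hbig
            linarith
    have h4 : Real.exp (-4) ≤ 1/27 := by
      rw [Real.exp_neg, inv_le_comm₀ (Real.exp_pos _) (by norm_num)]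
      have h9 : Real.exp 4 = Real.exp 1 ^ 4 := by
        rw [← Real.exp_nat_mul]; congr 1; norm_num
      have h10 : (27:ℝ)/10 ≤ Real.exp 1 := by have := Real.exp_one_gt_d9; linarith
      rw [h9]
      calc ((1/27 : ℝ))⁻¹ ≤ (27/10)^4 := by norm_num
        _ ≤ _ := by gcongr
    refine h1.trans ?_
    apply mul_le_mul_of_nonneg_right _ (by positivity)
    linarith
  -- macroscopic colours
  set M : Finset (Fin k) := univ.filter (fun j => τ * n ≤ l j) with hM
  have hMcard : (M.card : ℝ) ≤ 4 / τ := by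
    have h1 : ∑ j ∈ M, τ * n ≤ ∑ j, l j := by
      have h2 : ∑ j ∈ M, τ * n ≤ ∑ j ∈ M, l j := by
        apply sum_le_sum
        intro j hj
        exact (mem_filter.1 hj).2
      exact h2.trans (sum_le_sum_of_subset_of_nonneg (filter_subset _ _) fun j _ _ => hl0 j)
    rw [sum_const, nsmul_eq_mul] at h1
    rw [le_div_iff₀ hτ0]
    have h2 : (M.card : ℝ) * τ * n ≤ 4 * n := by linarith
    exact le_of_mul_le_mul_right h2 hnpos
  -- types
  let T' : Fin n → Finset (Fin k) := fun v => univ.filter (fun j => j ∈ M ∧ d * n ≤ dg (G j) v)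
  have hTmem : ∀ v j, j ∈ T' v ↔ j ∈ M ∧ d * n ≤ dg (G j) v := by
    intro v j; simp [T']
  let X : Fin k → Fin n → ℕ := fun j v =>
    (univ.filter (fun w => (G j).Adj v w ∧ ¬ (j ∈ T' v ∧ j ∈ T' w))).card
  have hXin : ∀ j ∈ M, (∑ v, (X j v : ℝ)) ≤ 2 * d * n ^ 2 := by
    intro j hj
    have h1 : ∀ v, X j v ≤ (univ.filter (fun w => (G j).Adj v w ∧ ¬ d * n ≤ dg (G j) v)).card +
        (univ.filter (fun w => (G j).Adj v w ∧ ¬ d * n ≤ dg (G j) w)).card := by
      intro v
      refine le_trans (card_le_card ?_) (card_union_le _ _)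
      intro w hw
      simp only [mem_filter, mem_univ, true_and, mem_union, hTmem] at hw ⊢
      tauto
    have h2 : (∑ v, (X j v : ℝ)) ≤
        ∑ v, ((univ.filter (fun w => (G j).Adj v w ∧ ¬ d * n ≤ dg (G j) v)).card : ℝ) +
        ∑ v, ((univ.filter (fun w => (G j).Adj v w ∧ ¬ d * n ≤ dg (G j) w)).card : ℝ) := by
      rw [← sum_add_distrib]
      apply sum_le_sum
      intro v _
      exact_mod_cast h1 v
    have h3 : ∀ v, ((univ.filter (fun w => (G j).Adj v w ∧ ¬ d * n ≤ dg (G j) v)).card : ℝ) ≤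
        d * n := by
      intro v
      by_cases h : d * n ≤ dg (G j) v
      · simp only [h, not_true_eq_false, and_false, filter_false, card_empty, Nat.cast_zero]
        positivity
      · simp only [h, not_false_eq_true, and_true]
        push Not at h
        exact h.le
    have h4 : ∑ v, ((univ.filter (fun w => (G j).Adj v w ∧ ¬ d * n ≤ dg (G j) w)).card : ℝ) =
        ∑ v, ((univ.filter (fun w => (G j).Adj v w ∧ ¬ d * n ≤ dg (G j) v)).card : ℝ) := by
      have h5 : ∑ v, (univ.filter (fun w => (G j).Adj v w ∧ ¬ d * n ≤ dg (G j) w)).card =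
        ∑ v, (univ.filter (fun w => (G j).Adj v w ∧ ¬ d * n ≤ dg (G j) v)).card := by
        simp_rw [card_filter]
        rw [sum_comm]
        apply sum_congr rfl
        intro v _
        apply sum_congr rfl
        intro w _
        simp only [SimpleGraph.adj_comm]
      exact_mod_cast h5
    rw [h4] at h2
    have h5 : ∑ v, ((univ.filter (fun w => (G j).Adj v w ∧ ¬ d * n ≤ dg (G j) v)).card : ℝ) ≤
        ∑ _v : Fin n, d * n := sum_le_sum fun v _ => h3 v
    simp only [sum_const, card_univ, Fintype.card_fin, nsmul_eq_mul] at h5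
    nlinarith
  have hXout : ∀ j ∉ M, (∑ v, (X j v : ℝ)) ≤ n + 2 * l j * (τ * n + 1) := by
    intro j hj
    have h1 : (∑ v, (X j v : ℝ)) ≤ ∑ v, (dg (G j) v : ℝ) := by
      apply sum_le_sum
      intro v _
      have : X j v ≤ dg (G j) v := by
        apply card_le_card
        intro w hw
        simp only [mem_filter, mem_univ, true_and] at hw ⊢
        exact hw.1
      exact_mod_cast this
    refine (h1.trans (excess_real hG j)).trans ?_
    have h2 : l j ≤ τ * n := by
      by_contra h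
      push Not at h
      exact hj (by simp [hM, h.le])
    have h3 := hl0 j
    have h4 : 2 * l j * (l j + 1) ≤ 2 * l j * (τ * n + 1) := by
      apply mul_le_mul_of_nonneg_left _ (by positivity)
      linarith
    simp only [hl] at h4 ⊢
    linarith
  have hcount : (∑ v, ((univ.filter (fun w => T' v ∩ T' w = ∅)).card : ℝ)) ≤
      n + ∑ j, ∑ v, (X j v : ℝ) := by
    have h1 : ∀ v, (univ.filter (fun w => T' v ∩ T' w = ∅)).card ≤ 1 + ∑ j, X j v := by
      intro v
      have h2 : (univ.filter (fun w => T' v ∩ T' w = ∅)) ⊆ {v} ∪ univ.biUnion (fun j =>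
          univ.filter (fun w => (G j).Adj v w ∧ ¬ (j ∈ T' v ∧ j ∈ T' w))) := by
        intro w hw
        rw [mem_filter] at hw
        rw [mem_union, mem_singleton, mem_biUnion]
        by_cases hvw : w = v
        · left; exact hvw
        · right
          obtain ⟨j, hj⟩ := hG.cover v w (Ne.symm hvw)
          refine ⟨j, mem_univ _, ?_⟩
          simp only [mem_filter, mem_univ, true_and]
          refine ⟨hj, ?_⟩
          intro h3
          have : j ∈ T' v ∩ T' w := mem_inter.2 h3
          rw [hw.2] at this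
          simp at this
      refine (card_le_card h2).trans ((card_union_le _ _).trans ?_)
      rw [card_singleton]
      exact Nat.add_le_add_left card_biUnion_le _
    have h2 : (∑ v, ((univ.filter (fun w => T' v ∩ T' w = ∅)).card : ℝ)) ≤
        ∑ v : Fin n, (1 + ∑ j, (X j v : ℝ)) := by
      apply sum_le_sum
      intro v _
      exact_mod_cast h1 v
    rw [sum_add_distrib] at h2
    simp only [sum_const, card_univ, Fintype.card_fin, nsmul_eq_mul, mul_one] at h2
    rwa [sum_comm] at h2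
  have hXtot : ∑ j, ∑ v, (X j v : ℝ) ≤ k * n + 8 * n * (τ * n + 1) + 8 * τ * n ^ 2 := by
    rw [← sum_filter_add_sum_filter_not univ (fun j => j ∈ M)]
    have h1 : ∑ j ∈ univ.filter (fun j => j ∈ M), ∑ v, (X j v : ℝ) ≤ 8 * τ * n ^ 2 := by
      have h2 : ∑ j ∈ univ.filter (fun j => j ∈ M), ∑ v, (X j v : ℝ) ≤
          ∑ j ∈ univ.filter (fun j => j ∈ M), 2 * d * n ^ 2 := by
        apply sum_le_sum
        intro j hj
        exact hXin j (mem_filter.1 hj).2
      rw [sum_const, nsmul_eq_mul] at h2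
      have h3 : (univ.filter (fun j => j ∈ M)) = M := by ext; simp
      rw [h3] at h2
      rw [h3]
      refine h2.trans ?_
      have h4 : (M.card : ℝ) * (2 * d * n ^ 2) ≤ (4 / τ) * (2 * d * n ^ 2) :=
        mul_le_mul_of_nonneg_right hMcard (by positivity)
      refine h4.trans (le_of_eq ?_)
      rw [hd]
      field_simp
      ring
    have h2 : ∑ j ∈ univ.filter (fun j => j ∉ M), ∑ v, (X j v : ℝ) ≤
        k * n + 8 * n * (τ * n + 1) := by
      have h3 : ∑ j ∈ univ.filter (fun j => j ∉ M), ∑ v, (X j v : ℝ) ≤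
          ∑ j ∈ univ.filter (fun j => j ∉ M), ((n : ℝ) + 2 * l j * (τ * n + 1)) := by
        apply sum_le_sum
        intro j hj
        exact hXout j (mem_filter.1 hj).2
      have h4 : ∑ j ∈ univ.filter (fun j => j ∉ M), ((n : ℝ) + 2 * l j * (τ * n + 1)) ≤
          ∑ j, ((n : ℝ) + 2 * l j * (τ * n + 1)) := by
        apply sum_le_sum_of_subset_of_nonneg (filter_subset _ _)
        intro j _ _
        have := hl0 j
        positivity
      have h5 : ∑ j, ((n : ℝ) + 2 * l j * (τ * n + 1)) =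
          k * n + 2 * (τ * n + 1) * ∑ j, l j := by
        rw [sum_add_distrib, mul_sum]
        simp only [sum_const, card_univ, Fintype.card_fin, nsmul_eq_mul]
        congr 1
        apply sum_congr rfl
        intro j _
        ring
      have h6 : 2 * (τ * n + 1) * ∑ j, l j ≤ 2 * (τ * n + 1) * (4 * n) :=
        mul_le_mul_of_nonneg_left hsmall.le (by positivity)
      linarith
    linarith
  have hR : (∑ v, ((univ.filter (fun w => T' v ∩ T' w = ∅)).card : ℝ)) ≤
      s ^ 2 * (Fintype.card (Fin n) : ℝ) ^ 2 := by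
    rw [Fintype.card_fin]
    refine (hcount.trans (by linarith [hXtot] : _ ≤
      (n : ℝ) + (k * n + 8 * n * (τ * n + 1) + 8 * τ * n ^ 2))).trans ?_
    have h1 : s ^ 2 = 18 * τ := by rw [hτ]; ring
    rw [h1]
    have h2 := mul_le_mul_of_nonneg_right hk hnpos.le
    have h3 := mul_le_mul_of_nonneg_right hn9 hnpos.le
    nlinarith
  have hkey := robust_ineq T' hs (by rw [Fintype.card_fin]; exact hn0) hR
  rw [Fintype.card_fin] at hkey
  set p : Fin k → ℝ := fun j => ((univ.filter (fun v => j ∈ T' v)).card : ℝ) / n with hp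
  have hp0 : ∀ j, 0 ≤ p j := fun j => by positivity
  have hp1 : ∀ j, p j ≤ 1 := fun j => by
    simp only [hp]
    rw [div_le_one hnpos]
    have : (univ.filter (fun v => j ∈ T' v)).card ≤ n := by
      simpa using card_le_univ (univ.filter (fun v => j ∈ T' v))
    exact_mod_cast this
  have hpout : ∀ j ∉ M, p j = 0 := by
    intro j hj
    simp only [hp]
    have : (univ.filter (fun v => j ∈ T' v)) = ∅ := by
      ext v
      simp only [mem_filter, mem_univ, true_and, hTmem, notMem_empty, iff_false]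
      tauto
    rw [this]
    simp
  have hfacin : ∀ j ∈ M, (gammaT (G j) : ℝ) ≤ ((1 - p j) + t) * n := by
    intro j hj
    have h1 := gammaT_le_low (hG.minDeg j) hd0 hd1 T
    rw [Fintype.card_fin] at h1
    have h2 : (univ.filter (fun v => j ∈ T' v)) =
        univ.filter (fun v => d * n ≤ (dg (G j) v : ℝ)) := by
      ext v
      simp only [mem_filter, mem_univ, true_and, hTmem]
      tauto
    have h4 : ((univ.filter (fun v => d * n ≤ (dg (G j) v : ℝ))).card : ℝ) +
        (univ.filter (fun v => ¬ d * n ≤ (dg (G j) v : ℝ))).card = n := by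
      have := card_filter_add_card_filter_not (s := (univ : Finset (Fin n)))
        (fun v => d * n ≤ (dg (G j) v : ℝ))
      rw [card_univ, Fintype.card_fin] at this
      exact_mod_cast this
    have h5 : (1 - p j) * n = (univ.filter (fun v => ¬ d * n ≤ (dg (G j) v : ℝ))).card := by
      simp only [hp]
      rw [h2]
      field_simp
      linarith
    have h7 : ((T : ℝ) / n + (1 - d) ^ T) * n ≤ t * n := mul_le_mul_of_nonneg_right ht hnpos.le
    have h8 : ((T : ℝ) / n + (1 - d) ^ T) * n = T + (1 - d) ^ T * n := by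
      field_simp
    rw [h8] at h7
    linarith
  have hprod : (∏ j, gammaT (G j) : ℝ) ≤ (∏ j ∈ M, ((1 - p j) + t)) * n ^ k := by
    have h1 : (∏ j, gammaT (G j) : ℝ) ≤ ∏ j, ((if j ∈ M then (1 - p j) + t else 1) * n) := by
      apply prod_le_prod
      · intro j _; exact Nat.cast_nonneg _
      · intro j _
        split_ifs with h
        · exact hfacin j h
        · rw [one_mul]; exact hγn j
    refine h1.trans (le_of_eq ?_)
    rw [prod_mul_distrib, prod_ite_mem, univ_inter]
    simp
  refine hprod.trans ?_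
  apply mul_le_mul_of_nonneg_right _ (by positivity)
  have h1 := prod_add_le M (fun j => 1 - p j) ht0
    (fun j => by have := hp1 j; linarith) (fun j => by have := hp0 j; linarith)
  have h2 : ∏ j ∈ M, (1 - p j) = ∏ j, (1 - p j) := by
    apply prod_subset (subset_univ _)
    intro j _ hj
    rw [hpout j hj]; ring
  have h3 : (1 + t) ^ M.card ≤ 1 + s := by
    have h4 : (1 + t) ^ M.card ≤ Real.exp (t * M.card) := by
      rw [mul_comm, Real.exp_nat_mul]
      apply pow_le_pow_left₀ (by linarith)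
      have := Real.add_one_le_exp t
      linarith
    have h5 : t * M.card ≤ s / 2 := by
      refine le_trans ?_ htt
      have := mul_le_mul_of_nonneg_left hMcard ht0
      refine this.trans (le_of_eq ?_)
      ring
    have h6 : Real.exp (s / 2) ≤ 1 + s := by
      have h7 := Real.add_one_le_exp (-(s / 2))
      have h8 : Real.exp (s/2) * Real.exp (-(s/2)) = 1 := by rw [← Real.exp_add]; simp
      have h9 := Real.exp_pos (s/2)
      have h10 : Real.exp (s/2) * (1 - s/2) ≤ 1 := by nlinarith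
      have h11 : 0 < 1 - s/2 := by linarith
      have h12 : 1 ≤ (1 + s) * (1 - s/2) := by nlinarith
      by_contra hcon
      push Not at hcon
      nlinarith
    exact (h4.trans (Real.exp_le_exp.2 h5)).trans h6
  rw [h2] at h1
  linarith

/-- Uniform upper bound. -/
theorem sub_upper {ε : ℝ} (hε : 0 < ε) :
    ∃ δ : ℝ, 0 < δ ∧ ∃ N : ℕ, ∀ n k : ℕ, N ≤ n → (k : ℝ) ≤ δ * n →
      (P n k : ℝ) ≤ (1/27 + ε) * n ^ k := by
  set s : ℝ := min (ε / 61) 1 with hs
  have hs0 : 0 < s := by positivity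
  have hs1 : s ≤ 1 := min_le_right _ _
  have hsε : 61 * s ≤ ε := by
    have := min_le_left (ε / 61) 1
    rw [← hs] at this
    linarith
  set τ : ℝ := s ^ 2 / 18 with hτ
  have hτ0 : 0 < τ := by positivity
  have hτ1 : τ ≤ 1 := by rw [hτ]; nlinarith
  set t : ℝ := τ * s / 8 with ht
  have ht0 : 0 < t := by positivity
  obtain ⟨T, hT⟩ : ∃ T : ℕ, (1 - τ ^ 2) ^ T < t / 2 := by
    apply exists_pow_lt_of_lt_one (by positivity)
    have : 0 < τ ^ 2 := by positivity
    linarith
  obtain ⟨N1, hN1⟩ := exists_nat_gt (2 * T / t)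
  obtain ⟨N2, hN2⟩ := exists_nat_gt (9 / τ)
  refine ⟨τ, hτ0, max N1 N2, fun n k hn hk => ?_⟩
  have hn1 : (N1 : ℝ) ≤ n := by exact_mod_cast (le_max_left _ _).trans hn
  have hn2 : (N2 : ℝ) ≤ n := by exact_mod_cast (le_max_right _ _).trans hn
  have hn9 : 9 ≤ τ * n := by
    have h1 : 9 / τ < n := hN2.trans_le hn2
    rw [div_lt_iff₀ hτ0] at h1
    linarith
  have hnpos : (0 : ℝ) < n := by
    by_contra h
    push Not at h
    nlinarith
  have hTn : (T : ℝ) / n ≤ t / 2 := by
    have h1 : 2 * T / t < n := hN1.trans_le hn1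
    rw [div_lt_iff₀ ht0] at h1
    rw [div_le_iff₀ hnpos]
    linarith
  rcases P_attained n k with h0 | ⟨G, hG, hP⟩
  · rw [h0]
    simp only [Nat.cast_zero]
    positivity
  · rw [hP]
    push_cast
    have h1 := sub_core hG (s := s) (τ := τ) (t := t) (T := T) hs0 hs1 hτ hk hn9
      (by linarith) (by
        rw [ht]
        have : 4 * (τ * s / 8) / τ = s / 2 := by field_simp; ring
        rw [this])
    refine h1.trans ?_
    apply mul_le_mul_of_nonneg_right _ (by positivity)
    linarith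

/-- Uniform lower bound. -/
theorem sub_lower {n k : ℕ} (hk : 3 ≤ k) (hkn : 2 * k ≤ n) :
    (1/27 * (1 - 15 / n - 2 * k / n)) * (n : ℝ) ^ k ≤ (P n k : ℝ) := by
  have hn6 : 6 ≤ n := by omega
  have hn6' : (6 : ℝ) ≤ n := by exact_mod_cast hn6
  have hnpos : (0 : ℝ) < n := by linarith
  obtain ⟨m, rfl⟩ : ∃ m, k = m + 3 := ⟨k - 3, by omega⟩
  have h3 := lower (n := n) (k := m + 3) (by omega) (by omega) (by omega)
  have h4 : (((2 * (n / 2 / 3)) ^ 3 * (2 * (n / 2) - 1) ^ (m + 3 - 3) : ℕ) : ℝ) ≤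
      (P n (m + 3) : ℝ) := by exact_mod_cast h3
  refine le_trans ?_ h4
  rw [Nat.add_sub_cancel]
  push_cast
  have h7 : ((n : ℝ) - 5) / 3 ≤ 2 * ((n / 2 / 3 : ℕ) : ℝ) := by
    have : n ≤ 6 * (n / 2 / 3) + 5 := by omega
    have h8 : (n : ℝ) ≤ 6 * ((n / 2 / 3 : ℕ) : ℝ) + 5 := by exact_mod_cast this
    linarith
  have h9 : (n : ℝ) - 2 ≤ ((2 * (n / 2) - 1 : ℕ) : ℝ) := by
    have : n ≤ (2 * (n / 2) - 1) + 2 := by omega
    have h8 : (n : ℝ) ≤ ((2 * (n / 2) - 1 : ℕ) : ℝ) + 2 := by exact_mod_cast this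
    linarith
  have h10 : 0 ≤ ((n : ℝ) - 5) / 3 := by linarith
  have h11 : 0 ≤ (n : ℝ) - 2 := by linarith
  refine le_trans ?_ (mul_le_mul (pow_le_pow_left₀ h10 h7 3) (pow_le_pow_left₀ h11 h9 m)
      (by positivity) (by positivity))
  have e1 : ((n : ℝ) - 5) / 3 = ((1 - 5 / n) / 3) * n := by field_simp
  have e2 : (n : ℝ) - 2 = (1 - 2 / n) * n := by field_simp
  rw [e1, e2, mul_pow, mul_pow, pow_add]
  have h12 : (1 : ℝ) - 15 / n ≤ (1 - 5 / n) ^ 3 := by
    have h13 : (0 : ℝ) ≤ 5 / n := by positivity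
    have h14 : (5 : ℝ) / n ≤ 1 := by rw [div_le_one hnpos]; linarith
    have h15 : (15 : ℝ) / n = 3 * (5 / n) := by ring
    rw [h15]
    nlinarith [mul_nonneg h13 h13, mul_nonneg (mul_nonneg h13 h13) h13]
  have h16 : 1 - 2 * (m : ℝ) / n ≤ (1 - 2 / n) ^ m := by
    have h17 : (-2 : ℝ) ≤ -(2 / n) := by
      have : (2 : ℝ) / n ≤ 2 := by rw [div_le_iff₀ hnpos]; linarith
      linarith
    have := one_add_mul_le_pow h17 m
    have h18 : (1 : ℝ) + m * (-(2 / n)) = 1 - 2 * m / n := by ring
    rw [h18, ← sub_eq_add_neg] at this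
    exact this
  have h19 : (0 : ℝ) ≤ (1 - 5 / n) ^ 3 := by
    have h14 : (5 : ℝ) / n ≤ 1 := by rw [div_le_one hnpos]; linarith
    apply pow_nonneg; linarith
  have h20 : (0 : ℝ) ≤ (1 - 2 / n) ^ m := by
    have h14 : (2 : ℝ) / n ≤ 1 := by rw [div_le_one hnpos]; linarith
    apply pow_nonneg; linarith
  have h21 : (1 - 15 / (n : ℝ) - 2 * (m + 3 : ℕ) / n) ≤ (1 - 5 / n) ^ 3 * (1 - 2 / n) ^ m := by
    have h22 : (1 - 5 / (n : ℝ)) ^ 3 ≤ 1 := by
      apply pow_le_one₀
      · have h14 : (5 : ℝ) / n ≤ 1 := by rw [div_le_one hnpos]; linarith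
        linarith
      · have : (0 : ℝ) ≤ 5 / n := by positivity
        linarith
    have h23 : (1 - 2 / (n : ℝ)) ^ m ≤ 1 := by
      apply pow_le_one₀
      · have h14 : (2 : ℝ) / n ≤ 1 := by rw [div_le_one hnpos]; linarith
        linarith
      · have : (0 : ℝ) ≤ 2 / n := by positivity
        linarith
    have h24 : (2 : ℝ) * (m + 3 : ℕ) / n = 2 * m / n + 6 / n := by push_cast; ring
    have h25 : (0 : ℝ) ≤ 6 / n := by positivity
    rw [h24]
    nlinarith
  push_cast at h21
  calc (1/27 * (1 - 15 / (n : ℝ) - 2 * ((m : ℝ) + 3) / n)) * ((n : ℝ) ^ m * (n : ℝ) ^ 3) ≤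
        (1/27 * ((1 - 5 / n) ^ 3 * (1 - 2 / n) ^ m)) * ((n : ℝ) ^ m * (n : ℝ) ^ 3) := by
        apply mul_le_mul_of_nonneg_right _ (by positivity)
        linarith
    _ = ((1 - 5 / (n : ℝ)) / 3) ^ 3 * (n : ℝ) ^ 3 * ((1 - 2 / (n : ℝ)) ^ m * (n : ℝ) ^ m) := by
        ring

/-- The limit for all sequences `κ n = o(n)`. -/
theorem sublinear_limit (κ : ℕ → ℕ) (h3 : ∀ n, 3 ≤ κ n)
    (ho : Filter.Tendsto (fun n : ℕ => (κ n : ℝ) / n) Filter.atTop (nhds 0)) :
    Filter.Tendsto (fun n : ℕ => (P n (κ n) : ℝ) / (n : ℝ) ^ (κ n)) Filter.atTop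
      (nhds (1 / 27)) := by
  rw [tendsto_order]
  constructor
  · intro a ha
    have hinv : Filter.Tendsto (fun n : ℕ => ((n : ℝ))⁻¹) Filter.atTop (nhds 0) :=
      tendsto_inv_atTop_zero.comp tendsto_natCast_atTop_atTop
    have hL : Filter.Tendsto (fun n : ℕ => 1/27 * (1 - 15 * ((n : ℝ))⁻¹ - 2 * ((κ n : ℝ) / n)))
        Filter.atTop (nhds (1/27 * (1 - 15 * 0 - 2 * 0))) :=
      (((tendsto_const_nhds.sub (hinv.const_mul 15)).sub (ho.const_mul 2))).const_mul _
    simp only [mul_zero, sub_zero, mul_one] at hL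
    filter_upwards [hL.eventually (lt_mem_nhds ha), ho.eventually (gt_mem_nhds
      (show (0 : ℝ) < 1/2 by norm_num)), Filter.eventually_ge_atTop 1] with n h1 h2 h4
    have hnpos : (0 : ℝ) < n := by exact_mod_cast h4
    refine h1.trans_le ?_
    rw [le_div_iff₀ (by positivity)]
    have h5 : 2 * κ n ≤ n := by
      rw [div_lt_iff₀ hnpos] at h2
      have : (2 : ℝ) * κ n ≤ n := by linarith
      exact_mod_cast this
    refine le_trans (le_of_eq ?_) (sub_lower (h3 n) h5)
    congr 2
    ring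
  · intro a ha
    obtain ⟨δ, hδ, N, hN⟩ := sub_upper (ε := (a - 1/27) / 2) (by linarith)
    filter_upwards [ho.eventually (gt_mem_nhds hδ), Filter.eventually_ge_atTop (max N 1)]
      with n h1 h2
    have hn1 : 1 ≤ n := (le_max_right _ _).trans h2
    have hnpos : (0 : ℝ) < n := by exact_mod_cast hn1
    rw [div_lt_iff₀ hnpos] at h1
    have h4 := hN n (κ n) ((le_max_left _ _).trans h2) h1.le
    rw [div_lt_iff₀ (by positivity)]
    refine h4.trans_lt ?_
    apply mul_lt_mul_of_pos_right _ (by positivity)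
    linarith

end Pool.Agent.Work.MP_1ce445_co_56
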